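import Mathlib

/-!
A negative answer to the question whether `C ≤ c k C_{u_1,…,u_k}` whenever `k ≤ e^{α H(G)}`.

The graph is undirected: a star with centre `c` and `N` leaves, joined by a single edge `c - d 0`
to a clique on `N` vertices.  A single walk needs about `N² log N` steps to see all the leaves,
since after about `N` visits to leaves it enters the clique, where it stays for about `N²` steps,
while `h_max = O(N²)`.  With `O(log N)` walkers at `c` and `O(log N)` walkers at `d 0` everything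
is covered in `O(N)` steps.
-/

set_option autoImplicit false
set_option linter.unusedSectionVars false

open MeasureTheory ProbabilityTheory Finset
open scoped ENNReal

namespace Pool.Agent.Results.MP_a2c283_pr.UndirectedCounterexample

section Definitions

variable {V : Type*}

open Classical in
/-- One step of simple random walk on a digraph: a uniformly random out-neighbour of `x`
(and `x` itself in the degenerate case where `x` has no out-neighbour). -/
noncomputable def stepLaw [Fintype V] (G : Digraph V) (x : V) : PMF V :=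
  if h : (Finset.univ.filter (fun y => G.Adj x y)).Nonempty then
    PMF.uniformOfFinset (Finset.univ.filter (fun y => G.Adj x y)) h
  else PMF.pure x

variable [Fintype V] [MeasurableSpace V] [DiscreteMeasurableSpace V]

/-- The transition kernel: given the path up to time `n`, the next position has law
`stepLaw` of the current position. -/
noncomputable def stepKernel (G : Digraph V) (n : ℕ) : Kernel (Finset.Iic n → V) V :=
  (Kernel.ofFunOfCountable (fun x => (stepLaw G x).toMeasure)).comap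
    (fun path => path ⟨n, Finset.mem_Iic.2 le_rfl⟩) (measurable_pi_apply _)

instance (G : Digraph V) (n : ℕ) : IsMarkovKernel (stepKernel G n) := by
  constructor
  intro a
  rw [stepKernel, Kernel.comap_apply]
  change IsProbabilityMeasure (stepLaw G _).toMeasure
  infer_instance

/-- The law (on the space of infinite paths) of simple random walk started at `u`. -/
noncomputable def walkLaw (G : Digraph V) (u : V) : Measure (ℕ → V) :=
  Kernel.trajMeasure (X := fun _ => V) (Measure.dirac u) (stepKernel G)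

instance (G : Digraph V) (u : V) : IsProbabilityMeasure (walkLaw G u) := by
  unfold walkLaw; infer_instance

/-- The hitting time `min {t ≥ 0 : ω t = v}` of a path (`∞` if `v` is never visited). -/
noncomputable def hitTime (v : V) (ω : ℕ → V) : ℝ≥0∞ :=
  ⨅ (t : ℕ) (_ : ω t = v), (t : ℝ≥0∞)

/-- `h(u,v)`: expected hitting time of `v` for the walk started at `u`. -/
noncomputable def hit (G : Digraph V) (u v : V) : ℝ≥0∞ :=
  ∫⁻ ω, hitTime v ω ∂(walkLaw G u)

/-- `h_max = max_{u,v} h(u,v)`. -/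
noncomputable def hitMax (G : Digraph V) : ℝ≥0∞ := ⨆ (u : V) (v : V), hit G u v

/-- The first time by which the union of the vertices visited by the `k` paths is everything. -/
noncomputable def coverTime {k : ℕ} (ω : Fin k → ℕ → V) : ℝ≥0∞ :=
  ⨅ (t : ℕ) (_ : ∀ v : V, ∃ i, ∃ s ≤ t, ω i s = v), (t : ℝ≥0∞)

/-- `C_{u_1,…,u_k}`: expected cover time of `k` independent walks started at `u_1,…,u_k`. -/
noncomputable def coverFrom (G : Digraph V) {k : ℕ} (u : Fin k → V) : ℝ≥0∞ :=
  ∫⁻ ω : Fin k → ℕ → V, coverTime ω ∂(Measure.pi fun i => walkLaw G (u i))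

/-- `C = max_u C_u`: largest expected cover time of a single walk. -/
noncomputable def coverMax (G : Digraph V) : ℝ≥0∞ := ⨆ u : V, coverFrom G (fun _ : Fin 1 => u)

/-- `H(G) = C / h_max`. -/
noncomputable def HH (G : Digraph V) : ℝ := (coverMax G / hitMax G).toReal

/-- An undirected simple graph seen as a digraph. -/
def toDi (G : SimpleGraph V) : Digraph V := ⟨G.Adj⟩

end Definitions

section Chain

variable {V : Type*} [Fintype V] [DecidableEq V] (p : V → V → ℝ≥0∞) (v : V)

/-- probability that the chain started at x avoids v up to time t (first step recursion) -/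
noncomputable def S : ℕ → V → ℝ≥0∞
  | 0, x => if x = v then 0 else 1
  | t + 1, x => if x = v then 0 else ∑ y, p x y * S t y

/-- probability that the chain started at w is at y at time t and has avoided v -/
noncomputable def Q (w : V) : ℕ → V → ℝ≥0∞
  | 0, y => if y = w ∧ y ≠ v then 1 else 0
  | t + 1, z => if z = v then 0 else ∑ y, Q w t y * p y z

lemma S_self (t : ℕ) : S p v t v = 0 := by cases t <;> simp [S]

lemma Q_self (w : V) (t : ℕ) : Q p v w t v = 0 := by cases t <;> simp [Q]

lemma sum_Q_S (w : V) (t s : ℕ) : ∑ x, Q p v w t x * S p v s x = S p v (t + s) w := by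
  induction t generalizing s with
  | zero =>
    rw [Finset.sum_eq_single w]
    · by_cases h : w = v
      · subst h; simp [S_self]
      · simp [Q, h]
    · intro b _ hb; simp [Q, hb]
    · intro h; exact absurd (Finset.mem_univ _) h
  | succ t ih =>
    have : t + 1 + s = t + (s + 1) := by ring
    rw [this, ← ih (s + 1)]
    simp only [Q, S]
    have h1 : ∀ x, (if x = v then 0 else ∑ y, Q p v w t y * p y x) * S p v s x
        = ∑ y, Q p v w t y * p y x * S p v s x := by
      intro x
      by_cases h : x = v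
      · subst h; simp [S_self]
      · simp [h, Finset.sum_mul]
    have h2 : ∀ y, (Q p v w t y * if y = v then 0 else ∑ z, p y z * S p v s z)
        = ∑ z, Q p v w t y * p y z * S p v s z := by
      intro y
      by_cases h : y = v
      · subst h; simp [Q_self]
      · simp [h, Finset.mul_sum, mul_assoc]
    simp_rw [h1, h2]
    exact Finset.sum_comm

lemma sum_Q (w : V) (t : ℕ) : ∑ x, Q p v w t x = S p v t w := by
  have := sum_Q_S p v w t 0
  rw [add_zero] at this
  rw [← this]
  refine Finset.sum_congr rfl fun x _ => ?_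
  by_cases h : x = v
  · subst h; simp [Q_self]
  · simp [S, h]


end Chain

section Walk

variable {V : Type*} [Fintype V] [MeasurableSpace V] [DiscreteMeasurableSpace V]

lemma iInf_eq_tsum (A : Set ℕ) [DecidablePred fun t => ∀ s ≤ t, s ∉ A] :
    ⨅ (t : ℕ) (_ : t ∈ A), (t : ℝ≥0∞) = ∑' t : ℕ, if ∀ s ≤ t, s ∉ A then 1 else 0 := by
  classical
  by_cases h : ∃ t, t ∈ A
  · have hn := Nat.find_spec h
    set n := Nat.find h with hndef
    have hmin : ∀ s, s < n → s ∉ A := fun s hs => Nat.find_min h hs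
    have h1 : ⨅ (t : ℕ) (_ : t ∈ A), (t : ℝ≥0∞) = n := by
      apply le_antisymm
      · exact iInf₂_le n hn
      · refine le_iInf₂ fun t ht => ?_
        have : n ≤ t := by
          by_contra hlt
          exact hmin t (not_le.1 hlt) ht
        exact_mod_cast this
    have h2 : ∀ t, (∀ s ≤ t, s ∉ A) ↔ t < n := by
      intro t
      constructor
      · intro ht
        by_contra hle
        exact ht n (not_lt.1 hle) hn
      · intro ht s hs
        exact hmin s (lt_of_le_of_lt hs ht)
    rw [h1]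
    simp_rw [h2]
    rw [tsum_eq_sum (s := Finset.range n)]
    · rw [Finset.sum_congr rfl (g := fun _ => (1 : ℝ≥0∞))]
      · simp
      · intro x hx; simp [Finset.mem_range.1 hx]
    · intro b hb
      simp only [Finset.mem_range] at hb
      simp [hb]
  · push Not at h
    have : ∀ t : ℕ, (∀ s ≤ t, s ∉ A) ↔ True := fun t => by simp [h]
    simp only [this, if_true]
    simp [h]

lemma iInf_hitTime {k : ℕ} (v : V) (ω : Fin k → ℕ → V) :
    ⨅ i, hitTime v (ω i) = 
      ∑' t : ℕ, Set.indicator {ω : Fin k → ℕ → V | ∀ i, ∀ s ≤ t, ω i s ≠ v} (fun _ => (1 : ℝ≥0∞)) ω := by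
  classical
  have := iInf_eq_tsum {t | ∃ i, ω i t = v}
  unfold hitTime
  rw [iInf_comm]
  have h2 : ∀ t : ℕ, (⨅ i, ⨅ (_ : ω i t = v), (t : ℝ≥0∞)) = ⨅ (_ : t ∈ {t | ∃ i, ω i t = v}), (t : ℝ≥0∞) := by
    intro t
    simp [iInf_exists]
  simp_rw [h2, this]
  refine tsum_congr fun t => ?_
  rw [Set.indicator_apply]
  congr 1
  simp only [Set.mem_ofPred_eq, eq_iff_iff, ne_eq, not_exists]
  exact ⟨fun h i s hs => h s hs i, fun h s hs i => h i s hs⟩

/-- the event of avoiding `v` up to time `t` -/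
def avoid (v : V) (t : ℕ) : Set (ℕ → V) := {ω | ∀ s ≤ t, ω s ≠ v}

lemma measurableSet_coord (t : ℕ) (x : V) : MeasurableSet {ω : ℕ → V | ω t = x} := by
  have : {ω : ℕ → V | ω t = x} = (fun ω : ℕ → V => ω t) ⁻¹' {x} := by ext ω; simp
  rw [this]
  exact (measurable_pi_apply t) (MeasurableSet.singleton x)

lemma measurableSet_avoid (v : V) (t : ℕ) : MeasurableSet (avoid v t) := by
  have : avoid v t = ⋂ s ∈ Finset.Iic t, (fun ω : ℕ → V => ω s) ⁻¹' {v}ᶜ := by
    ext ω; simp [avoid]
  rw [this]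
  exact Finset.measurableSet_biInter _ fun s _ => (measurable_pi_apply s) (MeasurableSet.of_discrete)

lemma hit_eq (G : Digraph V) (u v : V) :
    hit G u v = ∑' t : ℕ, walkLaw G u (avoid v t) := by
  classical
  unfold hit
  have h1 : ∀ ω : ℕ → V, hitTime v ω = ∑' t : ℕ, Set.indicator (avoid v t) (fun _ => (1 : ℝ≥0∞)) ω := by
    intro ω
    have := iInf_hitTime v (fun _ : Fin 1 => ω)
    rw [ciInf_const] at this
    rw [this]
    refine tsum_congr fun t => ?_
    rw [Set.indicator_apply, Set.indicator_apply]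
    congr 1
    simp [avoid]
  simp_rw [h1]
  rw [lintegral_tsum]
  · refine tsum_congr fun t => ?_
    rw [lintegral_indicator_const (measurableSet_avoid v t), one_mul]
  · intro t
    exact (measurable_const.indicator (measurableSet_avoid v t)).aemeasurable


lemma map_zero (G : Digraph V) (u : V) :
    (walkLaw G u).map (fun ω => ω 0) = Measure.dirac u := by
  unfold walkLaw Kernel.trajMeasure
  have h0 : (fun ω : ℕ → V => ω 0) = (fun x : (Finset.Iic 0 → V) => x ⟨0, by simp⟩) ∘ (Preorder.frestrictLe 0) := by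
    ext ω; rfl
  rw [h0, ← Measure.map_map (by fun_prop) (by fun_prop)]
  rw [Measure.map_comp _ _ (by fun_prop), Kernel.traj_map_frestrictLe, Kernel.partialTraj_self,
    Measure.id_comp]
  rw [Measure.map_map (by fun_prop) (by fun_prop)]
  exact Measure.map_id (μ := Measure.dirac u)

lemma step_meas (G : Digraph V) (u : V) (t : ℕ) (A : Set (Finset.Iic t → V)) (z : V) :
    walkLaw G u ((Preorder.frestrictLe t) ⁻¹' A ∩ {ω | ω (t + 1) = z}) =
      ∫⁻ ω in (Preorder.frestrictLe t) ⁻¹' A, stepLaw G (ω t) z ∂(walkLaw G u) := by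
  have hA : MeasurableSet A := MeasurableSet.of_discrete
  have key := congrArg (fun μ => μ (A ×ˢ {z}))
    (Kernel.map_frestrictLe_trajMeasure_compProd_eq_map_trajMeasure (X := fun _ => V)
      (μ₀ := Measure.dirac u) (κ := stepKernel G) (a := t))
  beta_reduce at key
  rw [Measure.compProd_apply_prod hA (MeasurableSet.singleton z), Measure.map_apply (by fun_prop)
    (hA.prod (MeasurableSet.singleton z)), setLIntegral_map hA (Kernel.measurable_coe _ (MeasurableSet.singleton z)) (by fun_prop)] at key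
  unfold walkLaw
  have hs : (fun x : ℕ → V => (Preorder.frestrictLe (π := fun _ => V) t x, x (t + 1))) ⁻¹' A ×ˢ {z} = 
    (Preorder.frestrictLe t) ⁻¹' A ∩ {ω | ω (t + 1) = z} := by
    ext ω; simp
  rw [hs] at key
  rw [← key]
  refine lintegral_congr fun ω => ?_
  rw [stepKernel, Kernel.comap_apply]
  change (stepLaw G (ω t)).toMeasure {z} = _
  rw [PMF.toMeasure_apply_singleton _ _ (MeasurableSet.singleton z)]

/-- probability of being at `y` at time `t` and having avoided `v` -/
noncomputable def q (G : Digraph V) (v u : V) (t : ℕ) (y : V) : ℝ≥0∞ :=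
  walkLaw G u (avoid v t ∩ {ω | ω t = y})

lemma q_eq (G : Digraph V) [DecidableEq V] (v u : V) (t : ℕ) (y : V) :
    q G v u t y = Q (fun x y => stepLaw G x y) v u t y := by
  induction t generalizing y with
  | zero =>
    have h := congrArg (fun μ => μ ({y} \ {v})) (map_zero G u)
    beta_reduce at h
    rw [Measure.map_apply (by fun_prop) MeasurableSet.of_discrete] at h
    have hs : (fun ω : ℕ → V => ω 0) ⁻¹' ({y} \ {v}) = avoid v 0 ∩ {ω | ω 0 = y} := by
      ext ω; simp [avoid, and_comm]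
    rw [hs] at h
    unfold q
    rw [h, Measure.dirac_apply' _ MeasurableSet.of_discrete, Q, Set.indicator_apply]
    simp only [Set.mem_sdiff, Set.mem_singleton_iff, Pi.one_apply]
    by_cases hy : y = u
    · subst hy; simp
    · have : u ≠ y := fun h => hy h.symm
      simp [hy, this]
  | succ t ih =>
    rw [Q]
    by_cases hy : y = v
    · subst hy
      have : avoid y (t + 1) ∩ {ω | ω (t + 1) = y} = ∅ := by
        ext ω
        simp only [avoid, Set.mem_inter_iff, Set.mem_ofPred_eq, Set.mem_empty_iff_false, iff_false, not_and]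
        intro h; exact h (t + 1) le_rfl
      simp [q, this]
    · rw [if_neg hy]
      have hset : avoid v (t + 1) ∩ {ω | ω (t + 1) = y} =
          (Preorder.frestrictLe (π := fun _ => V) t) ⁻¹' {x | ∀ s, x s ≠ v} ∩ {ω | ω (t + 1) = y} := by
        ext ω
        simp only [avoid, Set.mem_inter_iff, Set.mem_ofPred_eq, Set.mem_preimage]
        constructor
        · rintro ⟨h1, h2⟩
          exact ⟨fun s => h1 s ((Finset.mem_Iic.1 s.2).trans (Nat.le_succ t)), h2⟩
        · rintro ⟨h1, h2⟩
          refine ⟨fun s hs => ?_, h2⟩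
          rcases Nat.lt_or_ge t s with h3 | h3
          · have : s = t + 1 := by omega
            subst this; rw [h2]; exact hy
          · exact h1 ⟨s, Finset.mem_Iic.2 h3⟩
      have hset2 : (Preorder.frestrictLe (π := fun _ => V) t) ⁻¹' {x | ∀ s, x s ≠ v} = avoid v t := by
        ext ω
        simp only [avoid, Set.mem_ofPred_eq, Set.mem_preimage]
        constructor
        · intro h s hs
          exact h ⟨s, Finset.mem_Iic.2 hs⟩
        · intro h s
          exact h s (Finset.mem_Iic.1 s.2)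
      unfold q
      rw [hset, step_meas, hset2]
      have hdecomp : ∀ ω : ℕ → V, stepLaw G (ω t) y = ∑ x, Set.indicator {ω : ℕ → V | ω t = x} (fun _ => stepLaw G x y) ω := by
        intro ω
        rw [Finset.sum_eq_single (ω t)]
        · simp
        · intro b _ hb
          rw [Set.indicator_of_notMem]
          exact fun h => hb h.symm
        · intro h; exact absurd (Finset.mem_univ _) h
      simp_rw [hdecomp]
      rw [lintegral_finsetSum]
      · refine Finset.sum_congr rfl fun x _ => ?_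
        have hmx : MeasurableSet {ω : ℕ → V | ω t = x} := measurableSet_coord t x
        rw [lintegral_indicator_const hmx, ← ih x, q, Measure.restrict_apply hmx, Set.inter_comm, mul_comm]
      · intro x _
        have hmx : MeasurableSet {ω : ℕ → V | ω t = x} := measurableSet_coord t x
        exact measurable_const.indicator hmx

lemma walkLaw_avoid (G : Digraph V) [DecidableEq V] (v u : V) (t : ℕ) :
    walkLaw G u (avoid v t) = S (fun x y => stepLaw G x y) v t u := by
  rw [← sum_Q]
  simp_rw [← q_eq, q]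
  have : avoid v t = ⋃ y ∈ (Finset.univ : Finset V), (avoid v t ∩ {ω | ω t = y}) := by
    ext ω; simp
  conv_lhs => rw [this]
  rw [measure_biUnion_finset]
  · intro a _ b _ hab
    refine Set.disjoint_left.2 ?_
    rintro ω ⟨_, h1⟩ ⟨_, h2⟩
    exact hab (h1.symm.trans h2)
  · intro b _
    exact (measurableSet_avoid v t).inter (measurableSet_coord t b)


lemma S_antitone {p : V → V → ℝ≥0∞} [DecidableEq V] (hp : ∀ x, ∑ y, p x y = 1) (v : V) (t : ℕ) (x : V) :
    S p v (t + 1) x ≤ S p v t x := by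
  induction t generalizing x with
  | zero =>
    by_cases h : x = v
    · simp [S, h]
    · simp only [S, h, if_false]
      calc ∑ y, p x y * (if y = v then 0 else 1) ≤ ∑ y, p x y * 1 := by
            gcongr with y _
            split_ifs <;> simp
        _ = 1 := by simp [hp]
  | succ t ih =>
    by_cases h : x = v
    · simp [S, h]
    · rw [S, S, if_neg h, if_neg h]
      gcongr with y _
      exact ih y

lemma S_le_one {p : V → V → ℝ≥0∞} [DecidableEq V] (hp : ∀ x, ∑ y, p x y = 1) (v : V) (t : ℕ) (x : V) :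
    S p v t x ≤ 1 := by
  induction t with
  | zero => simp only [S]; split_ifs <;> simp
  | succ t ih => exact (S_antitone hp v t x).trans ih

lemma exists_S_lt_one {p : V → V → ℝ≥0∞} [DecidableEq V] (hp : ∀ x, ∑ y, p x y = 1) (v : V)
    (x : V) (hx : Relation.ReflTransGen (fun x y => p x y ≠ 0) x v) : ∃ n, S p v n x < 1 := by
  induction hx using Relation.ReflTransGen.head_induction_on with
  | refl => exact ⟨0, by simp [S]⟩
  | head hxy _ ih =>
    rename_i x y _
    obtain ⟨n, hn⟩ := ih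
    refine ⟨n + 1, ?_⟩
    by_cases h : x = v
    · simp [S, h]
    · rw [S, if_neg h, ← hp x]
      have hfin : ∀ z, p x z ≠ ∞ := by
        intro z
        have : p x z ≤ 1 := by
          rw [← hp x]; exact Finset.single_le_sum (f := fun z => p x z) (fun _ _ => zero_le) (Finset.mem_univ z)
        exact ne_top_of_le_ne_top ENNReal.one_ne_top this
      rw [← Finset.add_sum_erase _ _ (Finset.mem_univ y),
        ← Finset.add_sum_erase _ (fun z => p x z) (Finset.mem_univ y)]
      have hle1 : ∑ z ∈ Finset.univ.erase y, p x z * S p v n z ≤ ∑ z ∈ Finset.univ.erase y, p x z := by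
        refine Finset.sum_le_sum fun z _ => ?_
        exact mul_le_of_le_one_right' (S_le_one hp v n z)
      have hle2 : ∑ z ∈ Finset.univ.erase y, p x z ≠ ∞ := by
        exact (ENNReal.sum_lt_top.2 fun z _ => (hfin z).lt_top).ne
      rw [add_comm, add_comm (p x y)]
      rw [add_comm, add_comm _ (p x y)]
      refine ENNReal.add_lt_add_of_lt_of_le (ne_top_of_le_ne_top hle2 hle1) ?_ hle1
      calc p x y * S p v n y < p x y * 1 := 
            ENNReal.mul_lt_mul_right hxy (hfin y) hn
        _ = p x y := mul_one _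

lemma tsum_S_ne_top {p : V → V → ℝ≥0∞} [DecidableEq V] (hp : ∀ x, ∑ y, p x y = 1) (v : V)
    (hx : ∀ x, Relation.ReflTransGen (fun x y => p x y ≠ 0) x v) (w : V) :
    ∑' t, S p v t w ≠ ∞ := by
  choose n hn using fun x => exists_S_lt_one hp v x (hx x)
  set N := Finset.univ.sup n with hN
  have hanti : ∀ x, Antitone (fun t => S p v t x) := fun x => antitone_nat_of_succ_le (fun t => S_antitone hp v t x)
  have h1 : ∀ x, S p v N x < 1 := fun x =>
    lt_of_le_of_lt (hanti x (Finset.le_sup (f := n) (Finset.mem_univ x))) (hn x)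
  set δ := Finset.univ.sup (fun x => S p v N x) with hδ
  have hδ1 : δ < 1 := by
    rw [hδ, Finset.sup_lt_iff (by simp)]
    exact fun x _ => h1 x
  have h2 : ∀ t, S p v (t + N) w ≤ δ * S p v t w := by
    intro t
    rw [← sum_Q_S, ← sum_Q, Finset.mul_sum]
    refine Finset.sum_le_sum fun x _ => ?_
    rw [mul_comm]
    gcongr
    exact Finset.le_sup (f := fun x => S p v N x) (Finset.mem_univ x)
  set K : ℝ≥0∞ := N / (1 - δ) with hK
  have hpos : (1 - δ) ≠ 0 := by
    exact (tsub_pos_of_lt hδ1).ne'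
  have h3 : ∀ m, ∑ t ∈ Finset.range m, S p v t w ≤ K := by
    intro m
    have hfinT : ∑ t ∈ Finset.range m, S p v t w ≠ ∞ := by
      refine (ENNReal.sum_lt_top.2 fun t _ => ?_).ne
      exact lt_of_le_of_lt (S_le_one hp v t w) ENNReal.one_lt_top
    have h4 : ∑ t ∈ Finset.range m, S p v t w ≤ N + δ * ∑ t ∈ Finset.range m, S p v t w := by
      calc ∑ t ∈ Finset.range m, S p v t w ≤ ∑ t ∈ Finset.range (N + m), S p v t w := by
            refine Finset.sum_le_sum_of_subset ?_
            exact Finset.range_mono (by omega)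
        _ = ∑ t ∈ Finset.range N, S p v t w + ∑ t ∈ Finset.range m, S p v (N + t) w := by
            rw [Finset.sum_range_add]
        _ ≤ ∑ t ∈ Finset.range N, 1 + ∑ t ∈ Finset.range m, δ * S p v t w := by
            gcongr with t _ t _
            · exact S_le_one hp v t w
            · rw [add_comm]; exact h2 t
        _ = N + δ * ∑ t ∈ Finset.range m, S p v t w := by
            rw [Finset.mul_sum]; simp
    rw [hK, ENNReal.le_div_iff_mul_le (Or.inl hpos) (Or.inr (by simp))]
    have h5 : (∑ t ∈ Finset.range m, S p v t w) * (1 - δ) + δ * (∑ t ∈ Finset.range m, S p v t w) 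
      = ∑ t ∈ Finset.range m, S p v t w := by
      rw [mul_comm δ, ← mul_add, tsub_add_cancel_of_le hδ1.le, mul_one]
    have hδT : δ * (∑ t ∈ Finset.range m, S p v t w) ≠ ∞ :=
      ENNReal.mul_ne_top (ne_top_of_lt hδ1) hfinT
    rw [← ENNReal.add_le_add_iff_right hδT, h5]
    exact h4
  have h6 : ∑' t, S p v t w ≤ K := by
    rw [ENNReal.tsum_eq_iSup_nat]
    exact iSup_le h3
  exact ne_top_of_le_ne_top (ENNReal.div_ne_top (by simp) hpos) h6

lemma sum_stepLaw (G : Digraph V) (x : V) : ∑ y, stepLaw G x y = 1 := by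
  rw [← (stepLaw G x).tsum_coe, tsum_fintype]

lemma stepLaw_ne_zero (G : Digraph V) {x y : V} (h : G.Adj x y) : stepLaw G x y ≠ 0 := by
  classical
  have hne : (Finset.univ.filter (fun y => G.Adj x y)).Nonempty := ⟨y, by simp [h]⟩
  have : stepLaw G x = PMF.uniformOfFinset _ hne := by
    unfold stepLaw
    rw [dif_pos hne]
  rw [this, ← PMF.mem_support_iff, PMF.mem_support_uniformOfFinset_iff]
  simp [h]


/-- One step Markov property in integral form. -/
lemma lintegral_step (G : Digraph V) (u : V) (t : ℕ) (F : (Finset.Iic t → V) → V → ℝ≥0∞) :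
    ∫⁻ ω, F (Preorder.frestrictLe (π := fun _ => V) t ω) (ω (t + 1)) ∂(walkLaw G u) =
      ∫⁻ ω, ∑ z, stepLaw G (ω t) z * F (Preorder.frestrictLe (π := fun _ => V) t ω) z ∂(walkLaw G u) := by
  have key := congrArg (fun μ => ∫⁻ x, Function.uncurry F x ∂μ)
    (Kernel.map_frestrictLe_trajMeasure_compProd_eq_map_trajMeasure (X := fun _ => V)
      (μ₀ := Measure.dirac u) (κ := stepKernel G) (a := t))
  beta_reduce at key
  have hF : Measurable (Function.uncurry F) := Measurable.of_discrete
  rw [lintegral_map hF (by fun_prop), Measure.lintegral_compProd hF,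
    lintegral_map (by exact Measurable.of_discrete) (by fun_prop)] at key
  unfold walkLaw
  simp only [Function.uncurry] at key
  rw [← key]
  refine lintegral_congr fun ω => ?_
  rw [stepKernel, Kernel.comap_apply]
  change ∫⁻ z, F _ z ∂(stepLaw G (ω t)).toMeasure = _
  rw [lintegral_fintype]
  refine Finset.sum_congr rfl fun z _ => ?_
  rw [PMF.toMeasure_apply_singleton _ _ (MeasurableSet.singleton z), mul_comm]

end Walk

section CoverTimes


variable {V : Type*} [Fintype V] [MeasurableSpace V] [DiscreteMeasurableSpace V]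

/-- event that the `k` paths have not covered everything by time `t` -/
def uncov (k t : ℕ) : Set (Fin k → ℕ → V) := {ω | ¬ ∀ v : V, ∃ i, ∃ s ≤ t, ω i s = v}

lemma uncov_eq (k t : ℕ) : (uncov k t : Set (Fin k → ℕ → V)) =
    ⋃ v ∈ (Finset.univ : Finset V), Set.pi Set.univ (fun _ => avoid v t) := by
  ext ω
  simp only [uncov, Set.mem_ofPred_eq, not_forall, not_exists, not_and, Finset.mem_univ, Set.iUnion_true,
    Set.mem_iUnion, Set.mem_pi, Set.mem_univ, forall_true_left, avoid]

lemma measurableSet_uncov (k t : ℕ) : MeasurableSet (uncov k t : Set (Fin k → ℕ → V)) := by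
  rw [uncov_eq]
  exact Finset.measurableSet_biUnion _ fun v _ => MeasurableSet.univ_pi fun i => measurableSet_avoid v t

lemma coverTime_eq {k : ℕ} (ω : Fin k → ℕ → V) :
    coverTime ω = ∑' t : ℕ, Set.indicator (uncov k t) (fun _ => (1 : ℝ≥0∞)) ω := by
  classical
  have h := iInf_eq_tsum {t | ∀ v : V, ∃ i, ∃ s ≤ t, ω i s = v}
  unfold coverTime
  have h2 : (⨅ (t : ℕ) (_ : ∀ v : V, ∃ i, ∃ s ≤ t, ω i s = v), (t : ℝ≥0∞)) =
    ⨅ (t : ℕ) (_ : t ∈ {t | ∀ v : V, ∃ i, ∃ s ≤ t, ω i s = v}), (t : ℝ≥0∞) := rfl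
  rw [h2, h]
  refine tsum_congr fun t => ?_
  rw [Set.indicator_apply]
  congr 1
  simp only [uncov, Set.mem_ofPred_eq, eq_iff_iff]
  constructor
  · intro h1; exact h1 t le_rfl
  · intro h1 s hs h3
    apply h1
    intro v
    obtain ⟨i, r, hr, hr2⟩ := h3 v
    exact ⟨i, r, hr.trans hs, hr2⟩

lemma coverFrom_eq (G : Digraph V) {k : ℕ} (u : Fin k → V) :
    coverFrom G u = ∑' t : ℕ, (Measure.pi fun i => walkLaw G (u i)) (uncov k t) := by
  unfold coverFrom
  simp_rw [coverTime_eq]
  rw [lintegral_tsum]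
  · refine tsum_congr fun t => ?_
    rw [lintegral_indicator_const (measurableSet_uncov k t), one_mul]
  · intro t
    exact (measurable_const.indicator (measurableSet_uncov k t)).aemeasurable

lemma uncov_le (G : Digraph V) {k : ℕ} (u : Fin k → V) (t : ℕ) :
    (Measure.pi fun i => walkLaw G (u i)) (uncov k t) ≤ ∑ v : V, ∏ i, walkLaw G (u i) (avoid v t) := by
  rw [uncov_eq]
  refine (measure_biUnion_finset_le _ _).trans ?_
  refine Finset.sum_le_sum fun v _ => ?_
  rw [Measure.pi_pi]

lemma coverFrom_le (G : Digraph V) {k : ℕ} (u : Fin k → V) (T : ℕ) :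
    coverFrom G u ≤ T + ∑' t : ℕ, ∑ v : V, ∏ i, walkLaw G (u i) (avoid v (t + T)) := by
  rw [coverFrom_eq]
  have hsplit : ∀ f : ℕ → ℝ≥0∞, ∑' t, f t = ∑ t ∈ Finset.range T, f t + ∑' t, f (t + T) := by
    intro f
    exact (Summable.sum_add_tsum_nat_add' (f := f) (k := T) ENNReal.summable).symm
  rw [hsplit]
  gcongr with t
  · calc ∑ i ∈ Finset.range T, (Measure.pi fun i => walkLaw G (u i)) (uncov k i)
        ≤ ∑ i ∈ Finset.range T, 1 := by
          refine Finset.sum_le_sum fun i _ => ?_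
          exact prob_le_one
      _ = T := by simp
  · exact uncov_le G u (t + T)

lemma coverFrom_one (G : Digraph V) (u : V) :
    coverFrom G (fun _ : Fin 1 => u) = ∑' t : ℕ, walkLaw G u {ω | ¬ ∀ v : V, ∃ s ≤ t, ω s = v} := by
  rw [coverFrom_eq]
  refine tsum_congr fun t => ?_
  have : (uncov 1 t : Set (Fin 1 → ℕ → V)) = Set.pi Set.univ (fun _ => {ω | ¬ ∀ v : V, ∃ s ≤ t, ω s = v}) := by
    ext ω
    simp [uncov]
  rw [this, Measure.pi_pi]
  simp

/-- visited set -/
noncomputable def vis [DecidableEq V] (t : ℕ) (ω : ℕ → V) : Finset V :=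
  Finset.univ.image (Preorder.frestrictLe (π := fun _ => V) t ω)

lemma mem_vis [DecidableEq V] (t : ℕ) (ω : ℕ → V) (v : V) : v ∈ vis t ω ↔ ∃ s ≤ t, ω s = v := by
  unfold vis
  simp only [Finset.mem_image, Finset.mem_univ, true_and]
  constructor
  · rintro ⟨s, hs⟩
    exact ⟨s, Finset.mem_Iic.1 s.2, hs⟩
  · rintro ⟨s, hs, hv⟩
    exact ⟨⟨s, Finset.mem_Iic.2 hs⟩, hv⟩

lemma vis_succ [DecidableEq V] (t : ℕ) (ω : ℕ → V) : vis (t + 1) ω = insert (ω (t + 1)) (vis t ω) := by
  ext v
  rw [Finset.mem_insert, mem_vis, mem_vis]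
  constructor
  · rintro ⟨s, hs, hv⟩
    rcases Nat.lt_or_ge t s with h | h
    · have : s = t + 1 := by omega
      subst this; left; exact hv.symm
    · right; exact ⟨s, h, hv⟩
  · rintro (h | ⟨s, hs, hv⟩)
    · exact ⟨t + 1, le_rfl, h.symm⟩
    · exact ⟨s, by omega, hv⟩

theorem cover_lower [DecidableEq V] (G : Digraph V) (u : V) (g : V → Finset V → ℝ≥0∞) (L : Finset V)
    (B : ℝ≥0∞) (hB : B ≠ ∞) (hg : ∀ x R, g x R ≤ B) (h0 : ∀ x R, L ⊆ R → g x R = 0)
    (hstep : ∀ x R, x ∈ R → ¬ L ⊆ R → g x R ≤ 1 + ∑ y, stepLaw G x y * g y (insert y R)) :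
    g u {u} ≤ coverFrom G (fun _ : Fin 1 => u) := by
  classical
  rw [coverFrom_one]
  set μ := walkLaw G u with hμ
  let E : ℕ → Set (ℕ → V) := fun t => {ω | ¬ L ⊆ vis t ω}
  have hE_meas : ∀ t, MeasurableSet (E t) := by
    intro t
    have : E t = (Preorder.frestrictLe (π := fun _ => V) t) ⁻¹' {a | ¬ L ⊆ Finset.univ.image a} := by
      ext ω; rfl
    rw [this]
    exact (by fun_prop : Measurable (Preorder.frestrictLe (π := fun _ => V) t)) MeasurableSet.of_discrete
  have hEle : ∀ t, μ (E t) ≤ μ {ω | ¬ ∀ v : V, ∃ s ≤ t, ω s = v} := by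
    intro t
    apply measure_mono
    intro ω hω hcov
    apply hω
    intro v _
    exact (mem_vis t ω v).2 (hcov v)
  let Φ : ℕ → ℝ≥0∞ := fun t => ∫⁻ ω, g (ω t) (vis t ω) ∂μ
  have hΦstep : ∀ t, Φ t ≤ μ (E t) + Φ (t + 1) := by
    intro t
    have h1 : Φ (t + 1) = ∫⁻ ω, ∑ z, stepLaw G (ω t) z * g z (insert z (vis t ω)) ∂μ := by
      simp only [Φ]
      have := lintegral_step G u t (fun a z => g z (insert z (Finset.univ.image a)))
      rw [← hμ] at this
      simp_rw [vis_succ]
      exact this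
    rw [h1, ← one_mul (μ (E t)), ← lintegral_indicator_const (hE_meas t), ← lintegral_add_left
      (measurable_const.indicator (hE_meas t))]
    refine lintegral_mono fun ω => ?_
    by_cases hω : L ⊆ vis t ω
    · rw [h0 _ _ hω]; exact zero_le
    · have hmem : ω t ∈ vis t ω := (mem_vis t ω _).2 ⟨t, le_rfl, rfl⟩
      have h2 := hstep (ω t) (vis t ω) hmem hω
      have h3 : Set.indicator (E t) (fun _ => (1 : ℝ≥0∞)) ω = 1 := by
        rw [Set.indicator_of_mem]; exact hω
      rw [h3]
      exact h2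
  have hΦ0 : Φ 0 = g u {u} := by
    have hmap := map_zero G u
    have h1 : ∀ ω : ℕ → V, vis 0 ω = {ω 0} := by
      intro ω
      ext v
      rw [mem_vis, Finset.mem_singleton]
      constructor
      · rintro ⟨s, hs, hv⟩
        have : s = 0 := by omega
        subst this; exact hv.symm
      · intro h; exact ⟨0, le_rfl, h.symm⟩
    simp only [Φ]
    simp_rw [h1]
    have h2 : ∫⁻ ω, g (ω 0) {ω 0} ∂μ = ∫⁻ x, g x {x} ∂(μ.map (fun ω => ω 0)) := by
      rw [lintegral_map (by exact Measurable.of_discrete) (by fun_prop)]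
    rw [h2, hμ, hmap, lintegral_dirac]
  have htel : ∀ n, g u {u} ≤ ∑ t ∈ Finset.range n, μ (E t) + Φ n := by
    intro n
    induction n with
    | zero => simp [hΦ0]
    | succ n ih =>
      rw [Finset.sum_range_succ, add_assoc]
      exact ih.trans (by gcongr; exact hΦstep n)
  have hΦle : ∀ n, Φ n ≤ B * μ (E n) := by
    intro n
    simp only [Φ]
    rw [← lintegral_indicator_const (hE_meas n)]
    refine lintegral_mono fun ω => ?_
    by_cases hω : L ⊆ vis n ω
    · rw [h0 _ _ hω]; exact zero_le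
    · rw [Set.indicator_of_mem (show ω ∈ E n from hω)]
      exact hg _ _
  by_cases hfin : ∑' t, μ (E t) = ∞
  · have : ∑' t : ℕ, μ {ω | ¬ ∀ v : V, ∃ s ≤ t, ω s = v} = ∞ := by
      rw [eq_top_iff, ← hfin]
      exact ENNReal.tsum_le_tsum hEle
    rw [this]; exact le_top
  · have htend : Filter.Tendsto (fun n => μ (E n)) Filter.atTop (nhds 0) :=
      ENNReal.tendsto_atTop_zero_of_tsum_ne_top hfin
    have h1 : ∀ n, g u {u} ≤ ∑' t, μ (E t) + B * μ (E n) := by
      intro n
      refine (htel n).trans ?_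
      gcongr
      · exact ENNReal.sum_le_tsum _
      · exact hΦle n
    have h2 : Filter.Tendsto (fun n => ∑' t, μ (E t) + B * μ (E n)) Filter.atTop
        (nhds (∑' t, μ (E t) + B * 0)) := by
      refine Filter.Tendsto.add tendsto_const_nhds ?_
      exact ENNReal.Tendsto.const_mul htend (Or.inr hB)
    have h3 := ge_of_tendsto' h2 h1
    rw [mul_zero, add_zero] at h3
    exact h3.trans (ENNReal.tsum_le_tsum hEle)

/-- super-solutions bound hitting times -/
theorem hit_upper [DecidableEq V] (G : Digraph V) (v : V) (g : V → ℝ≥0∞)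
    (hstep : ∀ x, x ≠ v → 1 + ∑ y, stepLaw G x y * g y ≤ g x) (u : V) : hit G u v ≤ g u := by
  rw [hit_eq]
  simp_rw [walkLaw_avoid]
  rw [ENNReal.tsum_eq_iSup_nat]
  refine iSup_le fun n => ?_
  induction n generalizing u with
  | zero => simp
  | succ n ih =>
    rw [Finset.sum_range_succ']
    by_cases hu : u = v
    · subst hu; simp [S_self]
    · refine le_trans ?_ (hstep u hu)
      rw [add_comm]
      have h1 : S (fun x y => stepLaw G x y) v 0 u = 1 := by simp [S, hu]
      rw [h1]
      gcongr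
      have h2 : ∀ t, S (fun x y => stepLaw G x y) v (t + 1) u =
          ∑ y, stepLaw G u y * S (fun x y => stepLaw G x y) v t y := by
        intro t; simp [S, hu]
      simp_rw [h2]
      rw [Finset.sum_comm]
      refine Finset.sum_le_sum fun y _ => ?_
      rw [← Finset.mul_sum]
      gcongr
      exact ih y


end CoverTimes

section TheGraph


/-- vertices: the centre of the star, its leaves, and the vertices of a clique -/
inductive VT (M : ℕ) where
  | c : VT M
  | leaf (i : Fin (M + 2)) : VT M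
  | d (i : Fin (M + 2)) : VT M
  deriving DecidableEq

open VT

def VTe (M : ℕ) : VT M ≃ Unit ⊕ (Fin (M + 2) ⊕ Fin (M + 2)) where
  toFun
    | c => Sum.inl ()
    | leaf i => Sum.inr (Sum.inl i)
    | d i => Sum.inr (Sum.inr i)
  invFun
    | Sum.inl _ => c
    | Sum.inr (Sum.inl i) => leaf i
    | Sum.inr (Sum.inr i) => d i
  left_inv x := by cases x <;> rfl
  right_inv x := by rcases x with _ | _ | _ <;> rfl

instance (M : ℕ) : Fintype (VT M) := Fintype.ofEquiv _ (VTe M).symm
instance (M : ℕ) : MeasurableSpace (VT M) := ⊤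
instance (M : ℕ) : DiscreteMeasurableSpace (VT M) := ⟨fun _ => trivial⟩

lemma sum_VT {M : ℕ} {R : Type*} [AddCommMonoid R] (f : VT M → R) :
    ∑ x, f x = f c + (∑ i, f (leaf i) + ∑ i, f (d i)) := by
  rw [← Equiv.sum_comp (VTe M).symm]
  simp [VTe]

/-- the adjacency relation -/
def adj (M : ℕ) : VT M → VT M → Prop
  | c, leaf _ => True
  | leaf _, c => True
  | c, d i => i = 0
  | d i, c => i = 0
  | d i, d j => i ≠ j
  | _, _ => False

/-- star with `M+2` leaves joined by one edge to a clique on `M+2` vertices -/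
def GG (M : ℕ) : SimpleGraph (VT M) where
  Adj := adj M
  symm := ⟨by
    intro x y h
    cases x <;> cases y <;> simp_all [adj]
    exact fun h' => h h'.symm⟩
  loopless := ⟨by
    intro x h
    cases x <;> simp_all [adj]⟩

lemma sum_step {V : Type*} [Fintype V] (G : Digraph V) (x : V) [DecidableRel G.Adj] (g : V → ℝ≥0∞)
    (y0 : V) (hy0 : G.Adj x y0) :
    ∑ y, stepLaw G x y * g y =
      (∑ y, if G.Adj x y then g y else 0) * ((∑ y, if G.Adj x y then (1 : ℕ) else 0 : ℕ) : ℝ≥0∞)⁻¹ := by
  classical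
  have hne : (Finset.univ.filter (fun y => G.Adj x y)).Nonempty := ⟨y0, by simp [hy0]⟩
  have h1 : stepLaw G x = PMF.uniformOfFinset (Finset.univ.filter (fun y => G.Adj x y)) hne := by
    unfold stepLaw
    rw [dif_pos]
    · congr
    · convert hne
  rw [h1, Finset.sum_mul]
  refine Finset.sum_congr rfl fun y _ => ?_
  rw [PMF.uniformOfFinset_apply]
  have hcard : (Finset.univ.filter (fun y => G.Adj x y)).card = ∑ y, if G.Adj x y then (1 : ℕ) else 0 := by
    rw [Finset.card_filter]
  rw [← hcard]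
  by_cases h : G.Adj x y
  · simp [h, mul_comm]
  · simp [h]

variable {M : ℕ}

lemma ite_adj {R : Type*} (x y : VT M) [Decidable ((toDi (GG M)).Adj x y)] (P : Prop) [Decidable P]
    (h : adj M x y ↔ P) (a b : R) : (if (toDi (GG M)).Adj x y then a else b) = if P then a else b := by
  by_cases hP : P
  · rw [if_pos hP, if_pos (show (toDi (GG M)).Adj x y from h.2 hP)]
  · rw [if_neg hP, if_neg (fun hh : (toDi (GG M)).Adj x y => hP (h.1 hh))]

lemma step_c (g : VT M → ℝ≥0∞) : ∑ y, stepLaw (toDi (GG M)) c y * g y =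
    (∑ i, g (leaf i) + g (d 0)) * ((M + 3 : ℕ) : ℝ≥0∞)⁻¹ := by
  classical
  rw [sum_step (toDi (GG M)) c g (leaf 0) trivial]
  simp only [sum_VT]
  have h1 : ∀ i : Fin (M + 2), ∀ {R : Type} (a b : R), (if (toDi (GG M)).Adj c (leaf i) then a else b) =
      if True then a else b := fun i R a b => ite_adj _ _ _ (by simp [adj]) a b
  have h2 : ∀ i : Fin (M + 2), ∀ {R : Type} (a b : R), (if (toDi (GG M)).Adj c (d i) then a else b) =
      if i = 0 then a else b := fun i R a b => ite_adj _ _ _ (by simp [adj]) a b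
  have h3 : ∀ {R : Type} (a b : R), (if (toDi (GG M)).Adj c c then a else b) =
      if False then a else b := fun a b => ite_adj _ _ _ (by simp [adj]) a b
  simp only [h1, h2, h3]
  simp
  ring_nf

lemma step_leaf (i : Fin (M + 2)) (g : VT M → ℝ≥0∞) : ∑ y, stepLaw (toDi (GG M)) (leaf i) y * g y = g c := by
  classical
  rw [sum_step (toDi (GG M)) (leaf i) g c trivial]
  simp only [sum_VT]
  have h1 : ∀ j : Fin (M + 2), ∀ {R : Type} (a b : R), (if (toDi (GG M)).Adj (leaf i) (leaf j) then a else b) =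
      if False then a else b := fun i R a b => ite_adj _ _ _ (by simp [adj]) a b
  have h2 : ∀ j : Fin (M + 2), ∀ {R : Type} (a b : R), (if (toDi (GG M)).Adj (leaf i) (d j) then a else b) =
      if False then a else b := fun i R a b => ite_adj _ _ _ (by simp [adj]) a b
  have h3 : ∀ {R : Type} (a b : R), (if (toDi (GG M)).Adj (leaf i) c then a else b) =
      if True then a else b := fun a b => ite_adj _ _ _ (by simp [adj]) a b
  simp only [h1, h2, h3]
  simp

lemma step_d0 (g : VT M → ℝ≥0∞) : ∑ y, stepLaw (toDi (GG M)) (d 0) y * g y =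
    (g c + ∑ j ∈ Finset.univ.erase 0, g (d j)) * ((M + 2 : ℕ) : ℝ≥0∞)⁻¹ := by
  classical
  rw [sum_step (toDi (GG M)) (d 0) g c rfl]
  simp only [sum_VT]
  have h1 : ∀ j : Fin (M + 2), ∀ {R : Type} (a b : R), (if (toDi (GG M)).Adj (d 0) (leaf j) then a else b) =
      if False then a else b := fun i R a b => ite_adj _ _ _ (by simp [adj]) a b
  have h2 : ∀ j : Fin (M + 2), ∀ {R : Type} (a b : R), (if (toDi (GG M)).Adj (d 0) (d j) then a else b) =
      if j = 0 then b else a := fun j R a b => by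
        rw [ite_adj (d 0) (d j) (¬ (j = 0)) (by simp [adj, eq_comm]) a b, ite_not]
  have h3 : ∀ {R : Type} (a b : R), (if (toDi (GG M)).Adj (d 0) c then a else b) =
      if True then a else b := fun a b => ite_adj _ _ _ (by simp [adj]) a b
  simp only [h1, h2, h3]
  have h4 : ∀ f : Fin (M + 2) → ℝ≥0∞, (∑ j, if j = 0 then 0 else f j) = ∑ j ∈ Finset.univ.erase 0, f j := by
    intro f
    rw [← Finset.add_sum_erase _ _ (Finset.mem_univ (0 : Fin (M + 2)))]
    simp only [if_true, zero_add]
    refine Finset.sum_congr rfl fun j hj => ?_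
    rw [if_neg (Finset.ne_of_mem_erase hj)]
  have h5 : (∑ j : Fin (M + 2), if j = 0 then 0 else 1) = M + 1 := by
    rw [Fin.sum_univ_succ]; simp
  rw [h4, h5]
  simp
  ring_nf

lemma step_d (i : Fin (M + 2)) (hi : i ≠ 0) (g : VT M → ℝ≥0∞) :
    ∑ y, stepLaw (toDi (GG M)) (d i) y * g y =
    (∑ j ∈ Finset.univ.erase i, g (d j)) * ((M + 1 : ℕ) : ℝ≥0∞)⁻¹ := by
  classical
  rw [sum_step (toDi (GG M)) (d i) g (d 0) hi]
  simp only [sum_VT]
  have h1 : ∀ j : Fin (M + 2), ∀ {R : Type} (a b : R), (if (toDi (GG M)).Adj (d i) (leaf j) then a else b) =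
      if False then a else b := fun i R a b => ite_adj _ _ _ (by simp [adj]) a b
  have h2 : ∀ j : Fin (M + 2), ∀ {R : Type} (a b : R), (if (toDi (GG M)).Adj (d i) (d j) then a else b) =
      if j = i then b else a := fun j R a b => by
        rw [ite_adj (d i) (d j) (¬ (j = i)) (by simp [adj, eq_comm]) a b, ite_not]
  have h3 : ∀ {R : Type} (a b : R), (if (toDi (GG M)).Adj (d i) c then a else b) =
      if False then a else b := fun a b => ite_adj _ _ _ (by simp [adj, hi]) a b
  simp only [h1, h2, h3]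
  have h4 : ∀ f : Fin (M + 2) → ℝ≥0∞, (∑ j, if j = i then 0 else f j) = ∑ j ∈ Finset.univ.erase i, f j := by
    intro f
    rw [← Finset.add_sum_erase _ _ (Finset.mem_univ i)]
    simp only [if_true, zero_add]
    refine Finset.sum_congr rfl fun j hj => ?_
    rw [if_neg (Finset.ne_of_mem_erase hj)]
  have h5 : (∑ j : Fin (M + 2), if j = i then 0 else 1) = M + 1 := by
    rw [← Finset.add_sum_erase _ _ (Finset.mem_univ i)]
    simp only [if_true, zero_add]
    rw [Finset.sum_congr rfl (g := fun _ => 1) (fun j hj => if_neg (Finset.ne_of_mem_erase hj))]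
    simp
  rw [h4, h5]
  simp

/-- turning an averaged inequality into one without division -/
lemma step_ineq (K : ℕ) (hK : K ≠ 0) (X Y : ℝ≥0∞) (h : (K : ℝ≥0∞) + X ≤ K * Y) :
    1 + X * (K : ℝ≥0∞)⁻¹ ≤ Y := by
  have hK0 : (K : ℝ≥0∞) ≠ 0 := by exact_mod_cast hK
  have hKt : (K : ℝ≥0∞) ≠ ∞ := ENNReal.natCast_ne_top K
  have h1 : (K : ℝ≥0∞)⁻¹ * (K + X) ≤ (K : ℝ≥0∞)⁻¹ * (K * Y) := by gcongr
  rw [← mul_assoc, ENNReal.inv_mul_cancel hK0 hKt, one_mul, mul_add, ENNReal.inv_mul_cancel hK0 hKt] at h1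
  rw [mul_comm X]
  exact h1

lemma step_ineq' (K : ℕ) (hK : K ≠ 0) (X Y : ℝ≥0∞) (h : K * Y ≤ (K : ℝ≥0∞) + X) :
    Y ≤ 1 + X * (K : ℝ≥0∞)⁻¹ := by
  have hK0 : (K : ℝ≥0∞) ≠ 0 := by exact_mod_cast hK
  have hKt : (K : ℝ≥0∞) ≠ ∞ := ENNReal.natCast_ne_top K
  have h1 : (K : ℝ≥0∞)⁻¹ * (K * Y) ≤ (K : ℝ≥0∞)⁻¹ * (K + X) := by gcongr
  rw [← mul_assoc, ENNReal.inv_mul_cancel hK0 hKt, one_mul, mul_add, ENNReal.inv_mul_cancel hK0 hKt] at h1
  rw [mul_comm X]
  exact h1


end TheGraph

open VT

section HittingAndLowerBound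


variable {M : ℕ}

lemma sum_two (α β : ℕ) : ∑ j : Fin (M + 2), (if j = 0 then α else β) = α + (M + 1) * β := by
  rw [Fin.sum_univ_succ]; simp

lemma sum_one (x : Fin (M + 2)) (β : ℕ) : ∑ j : Fin (M + 2), (if j = x then 0 else β) = (M + 1) * β := by
  rw [← Finset.add_sum_erase _ _ (Finset.mem_univ x)]
  simp only [if_true, zero_add]
  rw [Finset.sum_congr rfl (g := fun _ => β) (fun j hj => if_neg (Finset.ne_of_mem_erase hj))]
  simp

lemma sum_three (y : Fin (M + 2)) (hy : y ≠ 0) (α β : ℕ) :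
    ∑ j : Fin (M + 2), (if j = y then 0 else if j = 0 then α else β) = α + M * β := by
  have h1 : ∑ j : Fin (M + 2), (if j = y then 0 else if j = 0 then α else β) + β = α + (M + 1) * β := by
    rw [← sum_two (M := M) α β, ← Finset.add_sum_erase _ (fun j => if j = 0 then α else β) (Finset.mem_univ y),
      ← Finset.add_sum_erase _ _ (Finset.mem_univ y)]
    simp only [if_true, zero_add, hy, if_false]
    rw [add_comm]
    congr 1
    refine Finset.sum_congr rfl fun j hj => ?_
    rw [if_neg (Finset.ne_of_mem_erase hj)]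
  have h2 : (M + 1) * β = M * β + β := by ring
  omega

lemma erase_sum (f : Fin (M + 2) → ℕ) (i : Fin (M + 2)) :
    f i + ∑ j ∈ Finset.univ.erase i, f j = ∑ j, f j := Finset.add_sum_erase _ _ (Finset.mem_univ i)

/-- a super-solution with natural number values bounds the hitting time -/
lemma hit_le_nat (v : VT M) (g : VT M → ℕ)
    (hc : v ≠ c → (M + 3) + (∑ i, g (leaf i) + g (d 0)) ≤ (M + 3) * g c)
    (hl : ∀ i, v ≠ leaf i → 1 + g c ≤ g (leaf i))
    (hd0 : v ≠ d 0 → (M + 2) + (g c + ∑ j ∈ Finset.univ.erase 0, g (d j)) ≤ (M + 2) * g (d 0))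
    (hd : ∀ i, i ≠ 0 → v ≠ d i → (M + 1) + ∑ j ∈ Finset.univ.erase i, g (d j) ≤ (M + 1) * g (d i))
    (u : VT M) : hit (toDi (GG M)) u v ≤ (g u : ℝ≥0∞) := by
  refine hit_upper (toDi (GG M)) v (fun x => (g x : ℝ≥0∞)) ?_ u
  intro x hx
  cases x with
  | c =>
    rw [step_c]
    apply step_ineq _ (by omega)
    exact_mod_cast hc (Ne.symm hx)
  | leaf i =>
    rw [step_leaf]
    exact_mod_cast hl i (Ne.symm hx)
  | d i =>
    by_cases hi : i = 0
    · subst hi
      rw [step_d0]
      apply step_ineq _ (by omega)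
      exact_mod_cast hd0 (Ne.symm hx)
    · rw [step_d i hi]
      apply step_ineq _ (by omega)
      exact_mod_cast hd i hi (Ne.symm hx)

lemma hit_bound_leaf (x : Fin (M + 2)) (u : VT M) :
    hit (toDi (GG M)) u (leaf x) ≤ ((4 * (M + 2) ^ 2 : ℕ) : ℝ≥0∞) := by
  let g : VT M → ℕ := fun
    | c => (M + 2) ^ 2 + (M + 2) + 1
    | leaf i => if i = x then 0 else (M + 2) ^ 2 + (M + 2) + 2
    | d i => if i = 0 then 2 * (M + 2) ^ 2 + 2 else 2 * (M + 2) ^ 2 + (M + 2) + 1
  have h := hit_le_nat (leaf x) g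
    (by
      intro _
      simp only [g, if_true]
      rw [sum_one]
      ring_nf; omega)
    (by
      intro i hi
      have : i ≠ x := fun h => hi (by rw [h])
      simp only [g, this, if_false]; omega)
    (by
      intro _
      have h1 := erase_sum (fun j : Fin (M + 2) => g (d j)) 0
      simp only [g] at h1 ⊢
      rw [sum_two] at h1
      simp only [if_true] at h1 ⊢
      ring_nf at h1 ⊢
      omega)
    (by
      intro i hi _
      have h1 := erase_sum (fun j : Fin (M + 2) => g (d j)) i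
      simp only [g] at h1 ⊢
      rw [sum_two] at h1
      simp only [hi, if_false] at h1 ⊢
      ring_nf at h1 ⊢
      omega) u
  refine h.trans ?_
  rw [Nat.cast_le]
  have hM : 4 ≤ (M + 2) ^ 2 := by
    have := Nat.pow_le_pow_left (show 2 ≤ M + 2 by omega) 2
    omega
  cases u <;> simp only [g]
  · nlinarith
  · split_ifs <;> nlinarith
  · split_ifs <;> nlinarith

lemma hit_bound_c (u : VT M) :
    hit (toDi (GG M)) u c ≤ ((4 * (M + 2) ^ 2 : ℕ) : ℝ≥0∞) := by
  let g : VT M → ℕ := fun
    | c => 0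
    | leaf i => 1
    | d i => if i = 0 then M ^ 2 + 3 * M + 3 else (M + 2) ^ 2
  have h := hit_le_nat c g
    (by intro h; exact absurd rfl h)
    (by intro i hi; simp only [g]; omega)
    (by
      intro _
      have h1 := erase_sum (fun j : Fin (M + 2) => g (d j)) 0
      simp only [g] at h1 ⊢
      rw [sum_two] at h1
      simp only [if_true] at h1 ⊢
      ring_nf at h1 ⊢
      omega)
    (by
      intro i hi _
      have h1 := erase_sum (fun j : Fin (M + 2) => g (d j)) i
      simp only [g] at h1 ⊢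
      rw [sum_two] at h1
      simp only [hi, if_false] at h1 ⊢
      ring_nf at h1 ⊢
      omega) u
  refine h.trans ?_
  rw [Nat.cast_le]
  have hM : 4 ≤ (M + 2) ^ 2 := by
    have := Nat.pow_le_pow_left (show 2 ≤ M + 2 by omega) 2
    omega
  cases u <;> simp only [g]
  · nlinarith
  · nlinarith
  · split_ifs <;> nlinarith

lemma hit_bound_d0 (u : VT M) :
    hit (toDi (GG M)) u (d 0) ≤ ((4 * (M + 2) ^ 2 : ℕ) : ℝ≥0∞) := by
  let g : VT M → ℕ := fun
    | c => 2 * (M + 2) + 1
    | leaf i => 2 * (M + 2) + 2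
    | d i => if i = 0 then 0 else M + 1
  have h := hit_le_nat (d 0) g
    (by
      intro _
      simp only [g, if_true, Finset.sum_const, Finset.card_univ, Fintype.card_fin, smul_eq_mul]
      ring_nf; omega)
    (by intro i hi; simp only [g]; omega)
    (by intro h; exact absurd rfl h)
    (by
      intro i hi _
      have h1 := erase_sum (fun j : Fin (M + 2) => g (d j)) i
      simp only [g] at h1 ⊢
      rw [sum_two] at h1
      simp only [hi, if_false] at h1 ⊢
      ring_nf at h1 ⊢
      omega) u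
  refine h.trans ?_
  rw [Nat.cast_le]
  have hM : 4 ≤ (M + 2) ^ 2 := by
    have := Nat.pow_le_pow_left (show 2 ≤ M + 2 by omega) 2
    omega
  cases u <;> simp only [g]
  · nlinarith
  · nlinarith
  · split_ifs <;> nlinarith

lemma hit_bound_d (y : Fin (M + 2)) (hy : y ≠ 0) (u : VT M) :
    hit (toDi (GG M)) u (d y) ≤ ((7 * (M + 2) ^ 2 : ℕ) : ℝ≥0∞) := by
  let g : VT M → ℕ := fun
    | c => 3 * (M + 2) + 8
    | leaf i => 3 * (M + 2) + 9
    | d i => if i = y then 0 else if i = 0 then (M + 2) + 7 else (M + 2) + 3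
  have h := hit_le_nat (d y) g
    (by
      intro _
      simp only [g, if_true, Finset.sum_const, Finset.card_univ, Fintype.card_fin, smul_eq_mul,
        Ne.symm hy, if_false]
      ring_nf; omega)
    (by intro i hi; simp only [g]; omega)
    (by
      intro _
      have h1 := erase_sum (fun j : Fin (M + 2) => g (d j)) 0
      simp only [g] at h1 ⊢
      rw [sum_three y hy] at h1
      simp only [if_true, Ne.symm hy, if_false] at h1 ⊢
      ring_nf at h1 ⊢
      omega)
    (by
      intro i hi hvi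
      have hiy : i ≠ y := fun h => hvi (by rw [h])
      have h1 := erase_sum (fun j : Fin (M + 2) => g (d j)) i
      simp only [g] at h1 ⊢
      rw [sum_three y hy] at h1
      simp only [hi, hiy, if_false] at h1 ⊢
      ring_nf at h1 ⊢
      omega) u
  refine h.trans ?_
  rw [Nat.cast_le]
  have hM : 4 ≤ (M + 2) ^ 2 := by
    have := Nat.pow_le_pow_left (show 2 ≤ M + 2 by omega) 2
    omega
  cases u <;> simp only [g]
  · nlinarith
  · nlinarith
  · split_ifs <;> nlinarith

lemma hit_bound (u v : VT M) : hit (toDi (GG M)) u v ≤ ((7 * (M + 2) ^ 2 : ℕ) : ℝ≥0∞) := by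
  have h47 : ((4 * (M + 2) ^ 2 : ℕ) : ℝ≥0∞) ≤ ((7 * (M + 2) ^ 2 : ℕ) : ℝ≥0∞) := by
    rw [Nat.cast_le]; nlinarith
  cases v with
  | c => exact (hit_bound_c u).trans h47
  | leaf x => exact (hit_bound_leaf x u).trans h47
  | d y =>
    by_cases hy : y = 0
    · subst hy; exact (hit_bound_d0 u).trans h47
    · exact hit_bound_d y hy u

/-- harmonic numbers in the extended nonnegative reals -/
noncomputable def harm (j : ℕ) : ℝ≥0∞ := ∑ i ∈ Finset.range j, ((i + 1 : ℕ) : ℝ≥0∞)⁻¹

lemma harm_zero : harm 0 = 0 := by simp [harm]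

lemma harm_succ (j : ℕ) : ((j + 1 : ℕ) : ℝ≥0∞) * harm (j + 1) = ((j + 1 : ℕ) : ℝ≥0∞) * harm j + 1 := by
  unfold harm
  rw [Finset.sum_range_succ, mul_add, ENNReal.mul_inv_cancel (by simp) (ENNReal.natCast_ne_top _)]

lemma harm_ne_top (j : ℕ) : harm j ≠ ∞ := by
  unfold harm
  refine (ENNReal.sum_lt_top.2 fun i _ => ?_).ne
  rw [ENNReal.inv_lt_top]
  positivity

lemma harm_mono {i j : ℕ} (h : i ≤ j) : harm i ≤ harm j := by
  unfold harm
  exact Finset.sum_le_sum_of_subset (Finset.range_mono h)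

/-- number of unvisited leaves -/
def unv (R : Finset (VT M)) : ℕ := (Finset.univ.filter (fun i : Fin (M + 2) => leaf i ∉ R)).card

lemma unv_insert_not_leaf (R : Finset (VT M)) (x : VT M) (hx : ∀ i, x ≠ leaf i) :
    unv (insert x R) = unv R := by
  unfold unv
  congr 1
  ext i
  simp [Ne.symm (hx i)]

lemma unv_insert_mem (R : Finset (VT M)) (x : VT M) (hx : x ∈ R) :
    unv (insert x R) = unv R := by rw [Finset.insert_eq_of_mem hx]

lemma unv_insert_leaf (R : Finset (VT M)) (i : Fin (M + 2)) (hi : leaf i ∉ R) :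
    unv (insert (leaf i) R) = unv R - 1 := by
  unfold unv
  have : (Finset.univ.filter (fun j : Fin (M + 2) => leaf j ∉ insert (leaf i) R)) =
      (Finset.univ.filter (fun j : Fin (M + 2) => leaf j ∉ R)).erase i := by
    ext j
    simp
  rw [this, Finset.card_erase_of_mem (by simp [hi])]

/-- waiting time part of the potential -/
def ee (M : ℕ) : VT M → ℕ
  | c => 0
  | leaf _ => 0
  | d i => if i = 0 then M ^ 2 + 3 * M + 3 else (M + 2) ^ 2

/-- the potential -/
noncomputable def pot (M : ℕ) (x : VT M) (R : Finset (VT M)) : ℝ≥0∞ :=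
  if unv R = 0 then 0 else (ee M x : ℝ≥0∞) + ((M ^ 2 + 4 * M + 6 : ℕ) : ℝ≥0∞) * harm (unv R)

def Lv (M : ℕ) : Finset (VT M) := Finset.univ.image leaf

lemma Lv_subset (R : Finset (VT M)) : Lv M ⊆ R ↔ unv R = 0 := by
  unfold Lv unv
  rw [Finset.card_eq_zero, Finset.filter_eq_empty_iff]
  simp [Finset.subset_iff]

lemma pot_lower : ((M ^ 2 + 4 * M + 6 : ℕ) : ℝ≥0∞) * harm (M + 2) ≤
    coverFrom (toDi (GG M)) (fun _ : Fin 1 => (c : VT M)) := by
  have hcard : unv ({c} : Finset (VT M)) = M + 2 := by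
    unfold unv; simp
  have h := cover_lower (toDi (GG M)) c (pot M) (Lv M)
    ((4 * (M + 2) ^ 2 : ℕ) + ((M ^ 2 + 4 * M + 6 : ℕ) : ℝ≥0∞) * harm (M + 2)) ?_ ?_ ?_ ?_
  · refine le_trans ?_ h
    unfold pot
    rw [hcard]
    simp [ee]
  · exact ENNReal.add_ne_top.2 ⟨ENNReal.natCast_ne_top _, ENNReal.mul_ne_top (ENNReal.natCast_ne_top _) (harm_ne_top _)⟩
  · intro x R
    unfold pot
    split_ifs
    · exact zero_le
    · have h1 : unv R ≤ M + 2 := by
        unfold unv
        exact (Finset.card_le_univ _).trans (by simp)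
      have h2 : ee M x ≤ 4 * (M + 2) ^ 2 := by
        have hM : 4 ≤ (M + 2) ^ 2 := by
          have := Nat.pow_le_pow_left (show 2 ≤ M + 2 by omega) 2
          omega
        cases x with
        | c => simp [ee]
        | leaf i => simp [ee]
        | d i => simp only [ee]; split_ifs <;> nlinarith
      gcongr
      exact harm_mono h1
  · intro x R hR
    unfold pot
    rw [if_pos ((Lv_subset R).1 hR)]
  · intro x R hx hR
    have hj : unv R ≠ 0 := fun h => hR ((Lv_subset R).2 h)
    set j := unv R with hjdef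
    set B : ℕ := M ^ 2 + 4 * M + 6 with hB
    have hpot : ∀ y : VT M, (∀ i, y ≠ leaf i) ∨ y ∈ R →
        pot M y (insert y R) = (ee M y : ℝ≥0∞) + (B : ℝ≥0∞) * harm j := by
      intro y hy
      have : unv (insert y R) = j := by
        rcases hy with h | h
        · exact unv_insert_not_leaf R y h
        · exact unv_insert_mem R y h
      unfold pot
      rw [this, if_neg hj]
    have hpotx : pot M x R = (ee M x : ℝ≥0∞) + (B : ℝ≥0∞) * harm j := by
      unfold pot; rw [if_neg hj]
    rw [hpotx]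
    cases x with
    | c =>
      rw [step_c]
      apply step_ineq' _ (by omega)
      rw [hpot (d 0) (Or.inl (by simp))]
      have hleaf : ∀ i, pot M (leaf i) (insert (leaf i) R) =
          if leaf i ∉ R then (B : ℝ≥0∞) * harm (j - 1) else (B : ℝ≥0∞) * harm j := by
        intro i
        by_cases hi : leaf i ∈ R
        · rw [if_neg (not_not.2 hi), hpot (leaf i) (Or.inr hi)]
          simp [ee]
        · rw [if_pos hi]
          unfold pot
          rw [unv_insert_leaf R i hi, ← hjdef]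
          split_ifs with h0
          · rw [h0, harm_zero, mul_zero]
          · rw [show ee M (leaf i) = 0 from rfl, Nat.cast_zero, zero_add]
      simp_rw [hleaf]
      rw [Finset.sum_ite, Finset.sum_const, Finset.sum_const]
      have hcard1 : (Finset.univ.filter (fun i : Fin (M + 2) => leaf i ∉ R)).card = j := rfl
      have hcard2 : (Finset.univ.filter (fun i : Fin (M + 2) => ¬ leaf i ∉ R)).card + j = M + 2 := by
        have := Finset.card_filter_add_card_filter_not (s := (Finset.univ : Finset (Fin (M + 2))))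
          (fun i => leaf i ∉ R)
        rw [Finset.card_univ, Fintype.card_fin, hcard1] at this
        rw [add_comm]; exact this
      rw [hcard1]
      set r := (Finset.univ.filter (fun i : Fin (M + 2) => ¬ leaf i ∉ R)).card with hr
      obtain ⟨j', hj'⟩ : ∃ j', j = j' + 1 := ⟨j - 1, by omega⟩
      have hh := harm_succ j'
      rw [← hj'] at hh
      have hj1 : j - 1 = j' := by omega
      rw [hj1]
      have hM3 : ((M + 3 : ℕ) : ℝ≥0∞) = (r : ℝ≥0∞) + (j : ℝ≥0∞) + 1 := by
        have : M + 3 = r + j + 1 := by omega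
        rw [this]; push_cast; ring
      have he0 : (ee M c : ℝ≥0∞) = 0 := by simp [ee]
      have hed : ee M (d 0) = M ^ 2 + 3 * M + 3 := by simp [ee]
      rw [he0, hed, zero_add]
      calc ((M + 3 : ℕ) : ℝ≥0∞) * ((B : ℝ≥0∞) * harm j)
          = (r : ℝ≥0∞) * ((B : ℝ≥0∞) * harm j) + (B : ℝ≥0∞) * ((j : ℝ≥0∞) * harm j) + (B : ℝ≥0∞) * harm j := by
            rw [hM3]; ring
        _ = (r : ℝ≥0∞) * ((B : ℝ≥0∞) * harm j) + (B : ℝ≥0∞) * ((j : ℝ≥0∞) * harm j' + 1) + (B : ℝ≥0∞) * harm j := by
            rw [hh]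
        _ = (B : ℝ≥0∞) + (j • ((B : ℝ≥0∞) * harm j') + r • ((B : ℝ≥0∞) * harm j) + (B : ℝ≥0∞) * harm j) := by
            rw [nsmul_eq_mul, nsmul_eq_mul]; ring
        _ = ((M + 3 : ℕ) : ℝ≥0∞) + (j • ((B : ℝ≥0∞) * harm j') + r • ((B : ℝ≥0∞) * harm j) +
            (((M ^ 2 + 3 * M + 3 : ℕ) : ℝ≥0∞) + (B : ℝ≥0∞) * harm j)) := by
            have : (B : ℝ≥0∞) = ((M + 3 : ℕ) : ℝ≥0∞) + ((M ^ 2 + 3 * M + 3 : ℕ) : ℝ≥0∞) := by
              rw [hB, ← Nat.cast_add]; congr 1; ring
            conv_lhs => rw [this]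
            conv_rhs => rw [this]
            ring
        _ ≤ _ := le_rfl
    | leaf i =>
      rw [step_leaf, hpot c (Or.inl (by simp))]
      simp [ee]
    | d i =>
      have hpd : ∀ l, pot M (d l) (insert (d l) R) = (ee M (d l) : ℝ≥0∞) + (B : ℝ≥0∞) * harm j :=
        fun l => hpot (d l) (Or.inl (by simp))
      have hnat : ∀ i : Fin (M + 2), (ee M (d i)) + ∑ l ∈ Finset.univ.erase i, ee M (d l) =
          (M ^ 2 + 3 * M + 3) + (M + 1) * (M + 2) ^ 2 := by
        intro i
        rw [erase_sum (fun l => ee M (d l)) i]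
        simp only [ee]
        rw [sum_two]
      by_cases hi : i = 0
      · subst hi
        rw [step_d0]
        apply step_ineq' _ (by omega)
        rw [hpot c (Or.inl (by simp))]
        simp_rw [hpd]
        rw [Finset.sum_add_distrib, Finset.sum_const]
        have h1 := hnat 0
        have hc2 : (Finset.univ.erase (0 : Fin (M + 2))).card = M + 1 := by simp
        rw [hc2]
        have h2 : (M + 2) * ee M (d 0) ≤ (M + 2) + ∑ l ∈ Finset.univ.erase 0, ee M (d l) := by
          simp only [ee, if_true] at h1 ⊢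
          ring_nf at h1 ⊢
          omega
        have h3 : ((M + 2 : ℕ) : ℝ≥0∞) * (ee M (d 0) : ℝ≥0∞) ≤
            ((M + 2 : ℕ) : ℝ≥0∞) + ∑ l ∈ Finset.univ.erase 0, (ee M (d l) : ℝ≥0∞) := by
          exact_mod_cast h2
        calc ((M + 2 : ℕ) : ℝ≥0∞) * ((ee M (d 0) : ℝ≥0∞) + (B : ℝ≥0∞) * harm j)
            = ((M + 2 : ℕ) : ℝ≥0∞) * (ee M (d 0) : ℝ≥0∞) + ((M + 2 : ℕ) : ℝ≥0∞) * ((B : ℝ≥0∞) * harm j) := by ring
          _ ≤ (((M + 2 : ℕ) : ℝ≥0∞) + ∑ l ∈ Finset.univ.erase 0, (ee M (d l) : ℝ≥0∞)) +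
              ((M + 2 : ℕ) : ℝ≥0∞) * ((B : ℝ≥0∞) * harm j) := by gcongr
          _ = _ := by
              simp only [ee, nsmul_eq_mul]
              push_cast
              ring
      · rw [step_d i hi]
        apply step_ineq' _ (by omega)
        simp_rw [hpd]
        rw [Finset.sum_add_distrib, Finset.sum_const]
        have h1 := hnat i
        have hc2 : (Finset.univ.erase i).card = M + 1 := by simp
        rw [hc2]
        have h2 : (M + 1) * ee M (d i) ≤ (M + 1) + ∑ l ∈ Finset.univ.erase i, ee M (d l) := by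
          simp only [ee, hi, if_false] at h1 ⊢
          ring_nf at h1 ⊢
          omega
        have h3 : ((M + 1 : ℕ) : ℝ≥0∞) * (ee M (d i) : ℝ≥0∞) ≤
            ((M + 1 : ℕ) : ℝ≥0∞) + ∑ l ∈ Finset.univ.erase i, (ee M (d l) : ℝ≥0∞) := by
          exact_mod_cast h2
        calc ((M + 1 : ℕ) : ℝ≥0∞) * ((ee M (d i) : ℝ≥0∞) + (B : ℝ≥0∞) * harm j)
            = ((M + 1 : ℕ) : ℝ≥0∞) * (ee M (d i) : ℝ≥0∞) + ((M + 1 : ℕ) : ℝ≥0∞) * ((B : ℝ≥0∞) * harm j) := by ring
          _ ≤ (((M + 1 : ℕ) : ℝ≥0∞) + ∑ l ∈ Finset.univ.erase i, (ee M (d l) : ℝ≥0∞)) +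
              ((M + 1 : ℕ) : ℝ≥0∞) * ((B : ℝ≥0∞) * harm j) := by gcongr
          _ = _ := by
              rw [nsmul_eq_mul]
              ring


end HittingAndLowerBound

section UpperBound


variable {M : ℕ}

/-- survival function of the walk on our graph -/
noncomputable def SS (M : ℕ) (v : VT M) (t : ℕ) (x : VT M) : ℝ≥0∞ :=
  S (fun x y => stepLaw (toDi (GG M)) x y) v t x

lemma SS_le_one (v : VT M) (t : ℕ) (x : VT M) : SS M v t x ≤ 1 :=
  S_le_one (sum_stepLaw (toDi (GG M))) v t x

lemma SS_anti (v : VT M) (x : VT M) {s t : ℕ} (h : s ≤ t) : SS M v t x ≤ SS M v s x :=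
  antitone_nat_of_succ_le (f := fun t => SS M v t x)
    (fun t => S_antitone (sum_stepLaw (toDi (GG M))) v t x) h

lemma SS_self (v : VT M) (t : ℕ) : SS M v t v = 0 := S_self _ _ t

lemma SS_succ (v : VT M) (t : ℕ) (x : VT M) (hx : x ≠ v) :
    SS M v (t + 1) x = ∑ y, stepLaw (toDi (GG M)) x y * SS M v t y := by
  unfold SS; rw [S, if_neg hx]

/-- bound sequence -/
noncomputable def aR (K : ℕ) (i : ℕ) : ℝ := 1/2 + 1/2 * (1 - 2 / (K : ℝ)) ^ i

lemma aR_nonneg (K : ℕ) (hK : 2 ≤ K) (i : ℕ) : 0 ≤ aR K i := by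
  unfold aR
  have h2 : (2 : ℝ) ≤ K := by exact_mod_cast hK
  have : 0 ≤ 1 - 2 / (K : ℝ) := by
    rw [sub_nonneg, div_le_one (by linarith)]; exact h2
  positivity

lemma aR_succ (K : ℕ) (hK : 2 ≤ K) (i : ℕ) : (((K : ℝ) - 2) * aR K i + 1) / K = aR K (i + 1) := by
  have h2 : (2 : ℝ) ≤ K := by exact_mod_cast hK
  have hK0 : (K : ℝ) ≠ 0 := by linarith
  unfold aR
  rw [pow_succ]
  field_simp
  ring

lemma aR_final (K : ℕ) (hK : 2 ≤ K) (n : ℕ) (hn : K ≤ n) : aR K n ≤ 2 / 3 := by
  have h2 : (2 : ℝ) ≤ K := by exact_mod_cast hK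
  have hn' : (K : ℝ) ≤ n := by exact_mod_cast hn
  set y : ℝ := 2 / (K : ℝ) with hy
  have hy0 : 0 ≤ y := by positivity
  have hy1 : y ≤ 1 := by rw [hy, div_le_one (by linarith)]; exact h2
  have h3 : (3 : ℝ) ≤ (1 + y) ^ n := by
    have h4 := one_add_mul_le_pow (a := y) (by linarith) n
    have h5 : 2 ≤ n * y := by
      rw [hy, mul_div_assoc', le_div_iff₀ (by linarith)]
      linarith
    linarith
  have h5 : (1 - y) ^ n * (1 + y) ^ n ≤ 1 := by
    rw [← mul_pow]
    apply pow_le_one₀
    · nlinarith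
    · nlinarith
  have h6 : 0 ≤ (1 - y) ^ n := pow_nonneg (by linarith) _
  unfold aR
  rw [← hy]
  nlinarith

lemma enn_step (a : ℝ) (ha : 0 ≤ a) (K : ℕ) (hK : 2 ≤ K) :
    (((K - 2 : ℕ) : ℝ≥0∞) * ENNReal.ofReal a + 1) * ((K : ℕ) : ℝ≥0∞)⁻¹ =
      ENNReal.ofReal ((((K : ℝ) - 2) * a + 1) / K) := by
  have h2 : (2 : ℝ) ≤ K := by exact_mod_cast hK
  have hcast : ((K - 2 : ℕ) : ℝ) = (K : ℝ) - 2 := by
    rw [Nat.cast_sub hK]; norm_num
  rw [ENNReal.ofReal_div_of_pos (by linarith), ENNReal.ofReal_add (by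
    have : 0 ≤ (K : ℝ) - 2 := by linarith
    positivity) (by norm_num), ENNReal.ofReal_mul (by linarith), ENNReal.ofReal_one,
    ENNReal.ofReal_natCast, ← hcast, ENNReal.ofReal_natCast, div_eq_mul_inv]

lemma S_leaf_bound (x : Fin (M + 2)) (i : ℕ) :
    SS M (leaf x) (2 * i) c ≤ ENNReal.ofReal (aR (M + 3) i) := by
  induction i with
  | zero =>
    have : aR (M + 3) 0 = 1 := by unfold aR; norm_num
    rw [this, ENNReal.ofReal_one]
    exact SS_le_one _ _ _
  | succ i ih =>
    have h2 : 2 * (i + 1) = (2 * i + 1) + 1 := by ring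
    rw [h2, SS_succ _ _ _ (by simp), step_c]
    have hl : ∀ l : Fin (M + 2), SS M (leaf x) (2 * i + 1) (leaf l) = if l = x then 0 else SS M (leaf x) (2 * i) c := by
      intro l
      by_cases h : l = x
      · subst h; rw [if_pos rfl, SS_self]
      · rw [if_neg h, SS_succ _ _ _ (by simpa using h), step_leaf]
    simp_rw [hl]
    have hsum : (∑ l : Fin (M + 2), if l = x then 0 else SS M (leaf x) (2 * i) c) =
        ((M + 3 - 2 : ℕ) : ℝ≥0∞) * SS M (leaf x) (2 * i) c := by
      rw [← Finset.add_sum_erase _ _ (Finset.mem_univ x)]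
      simp only [if_true, zero_add]
      rw [Finset.sum_congr rfl (g := fun _ => SS M (leaf x) (2 * i) c)
        (fun j hj => if_neg (Finset.ne_of_mem_erase hj))]
      simp
    rw [hsum]
    calc (((M + 3 - 2 : ℕ) : ℝ≥0∞) * SS M (leaf x) (2 * i) c + SS M (leaf x) (2 * i + 1) (d 0)) *
          ((M + 3 : ℕ) : ℝ≥0∞)⁻¹
        ≤ (((M + 3 - 2 : ℕ) : ℝ≥0∞) * ENNReal.ofReal (aR (M + 3) i) + 1) * ((M + 3 : ℕ) : ℝ≥0∞)⁻¹ := by
          gcongr
          exact SS_le_one _ _ _
      _ = ENNReal.ofReal (aR (M + 3) (i + 1)) := by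
          rw [enn_step _ (aR_nonneg _ (by omega) _) _ (by omega), aR_succ _ (by omega)]

lemma S_d_bound (y : Fin (M + 2)) (hy : y ≠ 0) (t : ℕ) (j : Fin (M + 2)) :
    SS M (d y) t (d j) ≤ ENNReal.ofReal (aR (M + 2) t) := by
  induction t generalizing j with
  | zero =>
    have : aR (M + 2) 0 = 1 := by unfold aR; norm_num
    rw [this, ENNReal.ofReal_one]
    exact SS_le_one _ _ _
  | succ t ih =>
    by_cases hjy : j = y
    · subst hjy; rw [SS_self]; exact zero_le
    have herase : ∀ i : Fin (M + 2), i ≠ y → ∑ l ∈ Finset.univ.erase i, SS M (d y) t (d l) ≤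
        ((M + 2 - 2 : ℕ) : ℝ≥0∞) * ENNReal.ofReal (aR (M + 2) t) := by
      intro i hi
      rw [← Finset.add_sum_erase _ _ (Finset.mem_erase.2 ⟨Ne.symm hi, Finset.mem_univ y⟩), SS_self, zero_add]
      calc ∑ l ∈ (Finset.univ.erase i).erase y, SS M (d y) t (d l)
          ≤ ∑ l ∈ (Finset.univ.erase i).erase y, ENNReal.ofReal (aR (M + 2) t) :=
            Finset.sum_le_sum fun l _ => ih l
        _ = ((M + 2 - 2 : ℕ) : ℝ≥0∞) * ENNReal.ofReal (aR (M + 2) t) := by
            rw [Finset.sum_const, Finset.card_erase_of_mem (Finset.mem_erase.2 ⟨Ne.symm hi, Finset.mem_univ y⟩),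
              Finset.card_erase_of_mem (Finset.mem_univ i), Finset.card_univ, Fintype.card_fin, nsmul_eq_mul]
            congr 2
    rw [SS_succ _ _ _ (by simpa using hjy)]
    by_cases hj : j = 0
    · subst hj
      rw [step_d0, ← aR_succ _ (by omega), ← enn_step _ (aR_nonneg _ (by omega) _) _ (by omega)]
      refine mul_le_mul' ?_ le_rfl
      rw [add_comm]
      exact add_le_add (herase 0 hjy) (SS_le_one _ _ _)
    · rw [step_d j hj]
      have h1 := herase j hjy
      have haR := aR_nonneg (M + 2) (by omega) t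
      have hle : (((M + 2 - 2 : ℕ) : ℝ≥0∞) * ENNReal.ofReal (aR (M + 2) t)) * ((M + 1 : ℕ) : ℝ≥0∞)⁻¹ ≤
          ENNReal.ofReal (aR (M + 2) (t + 1)) := by
        rw [← ENNReal.ofReal_natCast, ← ENNReal.ofReal_mul (by positivity), ← ENNReal.ofReal_natCast,
          ← div_eq_mul_inv, ← ENNReal.ofReal_div_of_pos (by positivity)]
        apply ENNReal.ofReal_le_ofReal
        rw [← aR_succ _ (by omega)]
        have haR1 : aR (M + 2) t ≤ 1 := by
          unfold aR
          have h0 : 0 ≤ 1 - 2 / ((M + 2 : ℕ) : ℝ) := by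
            rw [sub_nonneg, div_le_one (by positivity)]
            push_cast; linarith [(Nat.cast_nonneg M : (0:ℝ) ≤ M)]
          have : (1 - 2 / ((M + 2 : ℕ) : ℝ)) ^ t ≤ 1 := by
            apply pow_le_one₀ h0
            have : 0 ≤ 2 / ((M + 2 : ℕ) : ℝ) := by positivity
            linarith
          linarith
        have hM0 : (0 : ℝ) ≤ M := Nat.cast_nonneg M
        rw [div_le_div_iff₀ (by positivity) (by positivity)]
        have hsub : ((M + 2 - 2 : ℕ) : ℝ) = M := by simp
        rw [hsub]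
        push_cast
        nlinarith
      refine le_trans ?_ hle
      gcongr

lemma good_start (v : VT M) : (SS M v (2 * (M + 3)) c ≤ ENNReal.ofReal (2/3)) ∨
    (SS M v (2 * (M + 3)) (d 0) ≤ ENNReal.ofReal (2/3)) := by
  cases v with
  | c => left; rw [SS_self]; exact zero_le
  | leaf x =>
    left
    exact (S_leaf_bound x (M + 3)).trans (ENNReal.ofReal_le_ofReal (aR_final _ (by omega) _ le_rfl))
  | d y =>
    right
    by_cases hy : y = 0
    · subst hy; rw [SS_self]; exact zero_le
    · exact (S_d_bound y hy _ 0).trans (ENNReal.ofReal_le_ofReal (aR_final _ (by omega) _ (by omega)))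

/-- starting points -/
def start (M K : ℕ) : Fin ((K + 1) + (K + 1)) → VT M :=
  Fin.append (fun _ => c) (fun _ => d 0)

lemma hit_SS (u v : VT M) : hit (toDi (GG M)) u v = ∑' t, SS M v t u := by
  rw [hit_eq]; simp_rw [walkLaw_avoid]; rfl

lemma cover_upper (K : ℕ) : coverFrom (toDi (GG M)) (start M K) ≤
    ((2 * (M + 3) : ℕ) : ℝ≥0∞) + ((2 * M + 5 : ℕ) : ℝ≥0∞) *
      (ENNReal.ofReal (2/3) ^ K * ((7 * (M + 2) ^ 2 : ℕ) : ℝ≥0∞)) := by
  set T := 2 * (M + 3) with hT
  refine (coverFrom_le (toDi (GG M)) (start M K) T).trans ?_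
  gcongr
  rw [Summable.tsum_finsetSum (fun i _ => ENNReal.summable)]
  have hcard : ((2 * M + 5 : ℕ) : ℝ≥0∞) * (ENNReal.ofReal (2/3) ^ K * ((7 * (M + 2) ^ 2 : ℕ) : ℝ≥0∞)) =
      ∑ v : VT M, (ENNReal.ofReal (2/3) ^ K * ((7 * (M + 2) ^ 2 : ℕ) : ℝ≥0∞)) := by
    rw [Finset.sum_const, Finset.card_univ, nsmul_eq_mul]
    congr 2
    rw [Fintype.card_congr (VTe M)]
    simp
    ring
  rw [hcard]
  refine Finset.sum_le_sum fun v _ => ?_
  have hprod : ∀ t, ∏ i, walkLaw (toDi (GG M)) (start M K i) (avoid v (t + T)) =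
      SS M v (t + T) c ^ (K + 1) * SS M v (t + T) (d 0) ^ (K + 1) := by
    intro t
    rw [Fin.prod_univ_add]
    simp only [start, Fin.append_left, Fin.append_right, Finset.prod_const, Finset.card_univ,
      Fintype.card_fin, walkLaw_avoid]
    rfl
  simp_rw [hprod]
  have key : ∀ a b : VT M, SS M v T a ≤ ENNReal.ofReal (2/3) →
      ∑' t, SS M v (t + T) a ^ (K + 1) * SS M v (t + T) b ^ (K + 1) ≤
        ENNReal.ofReal (2/3) ^ K * ((7 * (M + 2) ^ 2 : ℕ) : ℝ≥0∞) := by
    intro a b hab
    calc ∑' t, SS M v (t + T) a ^ (K + 1) * SS M v (t + T) b ^ (K + 1)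
        ≤ ∑' t, ENNReal.ofReal (2/3) ^ K * SS M v (t + T) a := by
          refine ENNReal.tsum_le_tsum fun t => ?_
          calc SS M v (t + T) a ^ (K + 1) * SS M v (t + T) b ^ (K + 1)
              ≤ (ENNReal.ofReal (2/3) ^ K * SS M v (t + T) a) * 1 := by
                rw [pow_succ]
                gcongr
                · exact (SS_anti v a (by omega)).trans hab
                · exact pow_le_one₀ zero_le (SS_le_one _ _ _)
            _ = _ := mul_one _
      _ = ENNReal.ofReal (2/3) ^ K * ∑' t, SS M v (t + T) a := ENNReal.tsum_mul_left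
      _ ≤ ENNReal.ofReal (2/3) ^ K * ∑' t, SS M v t a := by
          refine mul_le_mul' le_rfl ?_
          exact ENNReal.tsum_comp_le_tsum_of_injective (f := fun t : ℕ => t + T)
            (fun x y h => by simpa using h) (fun t => SS M v t a)
      _ ≤ _ := by
          gcongr
          rw [← hit_SS]
          exact hit_bound a v
  rcases good_start v with h | h
  · exact key c (d 0) h
  · have := key (d 0) c h
    simp_rw [mul_comm (SS M v _ (d 0) ^ (K + 1))] at this
    exact this


end UpperBound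

section Final


variable {M : ℕ}

lemma GG_connected (M : ℕ) : (GG M).Connected := by
  have hne : Nonempty (VT M) := ⟨c⟩
  have hr : ∀ x : VT M, (GG M).Reachable c x := by
    have h0 : (GG M).Reachable c (d 0) := SimpleGraph.Adj.reachable (show adj M c (d 0) from rfl)
    intro x
    cases x with
    | c => exact SimpleGraph.Reachable.refl _
    | leaf i => exact SimpleGraph.Adj.reachable (show adj M c (leaf i) from trivial)
    | d i =>
      by_cases hi : i = 0
      · subst hi; exact h0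
      · exact h0.trans (SimpleGraph.Adj.reachable (show adj M (d 0) (d i) from Ne.symm hi))
  exact ⟨fun u v => (hr u).symm.trans (hr v)⟩

lemma harm_pow (r : ℕ) : (r : ℝ≥0∞) / 2 ≤ harm (2 ^ r) := by
  induction r with
  | zero => simp
  | succ r ih =>
    have h1 : harm (2 ^ (r + 1)) = harm (2 ^ r) +
        ∑ i ∈ Finset.range (2 ^ r), ((2 ^ r + i + 1 : ℕ) : ℝ≥0∞)⁻¹ := by
      unfold harm
      rw [pow_succ, mul_two, Finset.sum_range_add]
    have h2 : (1 : ℝ≥0∞) / 2 ≤ ∑ i ∈ Finset.range (2 ^ r), ((2 ^ r + i + 1 : ℕ) : ℝ≥0∞)⁻¹ := by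
      calc (1 : ℝ≥0∞) / 2 = ∑ i ∈ Finset.range (2 ^ r), ((2 ^ (r + 1) : ℕ) : ℝ≥0∞)⁻¹ := by
            rw [Finset.sum_const, Finset.card_range, nsmul_eq_mul, pow_succ]
            push_cast
            rw [ENNReal.mul_inv (Or.inr (by norm_num)) (Or.inr (by norm_num)), ← mul_assoc,
              ENNReal.mul_inv_cancel (by positivity) (by simp), one_mul, one_div]
        _ ≤ _ := by
            refine Finset.sum_le_sum fun i hi => ?_
            rw [ENNReal.inv_le_inv, Nat.cast_le, pow_succ]
            have := Finset.mem_range.1 hi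
            omega
    rw [h1]
    calc ((r + 1 : ℕ) : ℝ≥0∞) / 2 = (r : ℝ≥0∞) / 2 + 1 / 2 := by
          push_cast; rw [ENNReal.add_div]
      _ ≤ _ := add_le_add ih h2

lemma hitMax_le : hitMax (toDi (GG M)) ≤ ((7 * (M + 2) ^ 2 : ℕ) : ℝ≥0∞) :=
  iSup₂_le fun u v => hit_bound u v

lemma coverMax_le : coverMax (toDi (GG M)) ≤ ((2 * M + 5 : ℕ) : ℝ≥0∞) * hitMax (toDi (GG M)) := by
  refine iSup_le fun u => ?_
  refine (coverFrom_le (toDi (GG M)) (fun _ : Fin 1 => u) 0).trans ?_
  rw [Nat.cast_zero, zero_add, Summable.tsum_finsetSum (fun i _ => ENNReal.summable)]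
  have hcard : ((2 * M + 5 : ℕ) : ℝ≥0∞) * hitMax (toDi (GG M)) = ∑ v : VT M, hitMax (toDi (GG M)) := by
    rw [Finset.sum_const, Finset.card_univ, nsmul_eq_mul]
    congr 2
    rw [Fintype.card_congr (VTe M)]
    simp
    ring
  rw [hcard]
  refine Finset.sum_le_sum fun v _ => ?_
  have : ∑' t : ℕ, ∏ _i : Fin 1, walkLaw (toDi (GG M)) u (avoid v (t + 0)) = hit (toDi (GG M)) u v := by
    rw [hit_eq]; simp
  rw [this]
  exact le_iSup₂ (f := fun u v => hit (toDi (GG M)) u v) u v

lemma coverMax_ge (r : ℕ) (hM : M + 2 = 2 ^ r) :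
    (((M + 2) ^ 2 : ℕ) : ℝ≥0∞) * ((r : ℝ≥0∞) / 2) ≤ coverMax (toDi (GG M)) := by
  refine le_trans ?_ (le_iSup (fun u => coverFrom (toDi (GG M)) (fun _ : Fin 1 => u)) c)
  refine le_trans ?_ pot_lower
  gcongr
  · nlinarith
  · rw [hM]; exact harm_pow r

lemma cover_upper' (r : ℕ) (hM : M + 2 = 2 ^ r) :
    coverFrom (toDi (GG M)) (start M (6 * r)) ≤ ENNReal.ofReal (25 * 2 ^ r) := by
  refine (cover_upper (M := M) (6 * r)).trans ?_
  rw [← ENNReal.ofReal_pow (by norm_num), ← ENNReal.ofReal_natCast, ← ENNReal.ofReal_natCast,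
    ← ENNReal.ofReal_natCast, ← ENNReal.ofReal_mul (by positivity), ← ENNReal.ofReal_mul (by positivity),
    ← ENNReal.ofReal_add (by positivity) (by positivity)]
  apply ENNReal.ofReal_le_ofReal
  have hN : ((M : ℝ) + 2) = 2 ^ r := by exact_mod_cast hM
  set N : ℝ := 2 ^ r with hNdef
  have hN1 : 1 ≤ N := one_le_pow₀ (by norm_num)
  have hpow : (2/3 : ℝ) ^ (6 * r) ≤ 1 / N ^ 3 := by
    have h1 : (2/3 : ℝ) ^ (6 * r) = ((2/3) ^ 6) ^ r := by rw [pow_mul]
    have h2 : 1 / N ^ 3 = (1 / 8 : ℝ) ^ r := by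
      rw [hNdef, ← pow_mul, mul_comm r 3, pow_mul, one_div_pow]; norm_num
    rw [h1, h2]
    exact pow_le_pow_left₀ (by norm_num) (by norm_num) r
  have hMr : (M : ℝ) = N - 2 := by linarith
  push_cast
  rw [hMr]
  have h3 : (2 * (N - 2) + 5) * ((2/3 : ℝ) ^ (6 * r) * (7 * (N - 2 + 2) ^ 2)) ≤
      (2 * (N - 2) + 5) * (1 / N ^ 3 * (7 * (N - 2 + 2) ^ 2)) := by
    have : 0 ≤ 2 * (N - 2) + 5 := by linarith
    gcongr
  have h4 : (2 * (N - 2) + 5) * (1 / N ^ 3 * (7 * (N - 2 + 2) ^ 2)) = 14 + 7 / N := by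
    field_simp
    ring
  have h5 : 7 / N ≤ 7 := by
    rw [div_le_iff₀ (by linarith)]; linarith
  rw [h4] at h3
  linarith

/-- For all `α, c > 0` there are a connected undirected graph `G`, a number `k ≤ e^{α H(G)}` of
walkers and starting vertices `u_1,…,u_k` with `c k C_{u_1,…,u_k} < C`. -/
theorem result (α c : ℝ) (hα : 0 < α) (hc : 0 < c) :
    ∃ (V : Type) (_ : Fintype V) (_ : MeasurableSpace V) (_ : DiscreteMeasurableSpace V)
      (G : SimpleGraph V), G.Connected ∧ ∃ (k : ℕ) (u : Fin k → V), 1 ≤ k ∧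
        (k : ℝ) ≤ Real.exp (α * HH (toDi G)) ∧
        ENNReal.ofReal (c * k) * coverFrom (toDi G) u < coverMax (toDi G) := by
  obtain ⟨r, hr⟩ := exists_nat_ge (max 1 (max (5488 / α ^ 2) (700 * c)))
  have hr1 : (1 : ℝ) ≤ r := (le_max_left _ _).trans hr
  have hr2 : 5488 / α ^ 2 ≤ r := ((le_max_left _ _).trans (le_max_right _ _)).trans hr
  have hr3 : 700 * c ≤ r := ((le_max_right _ _).trans (le_max_right _ _)).trans hr
  have hrn : 1 ≤ r := by exact_mod_cast hr1
  have h2r : 2 ≤ 2 ^ r := by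
    calc 2 = 2 ^ 1 := by norm_num
      _ ≤ 2 ^ r := Nat.pow_le_pow_right (by norm_num) hrn
  obtain ⟨M, hM⟩ : ∃ M, M + 2 = 2 ^ r := ⟨2 ^ r - 2, by omega⟩
  have hN : ((M : ℝ) + 2) = 2 ^ r := by exact_mod_cast hM
  refine ⟨VT M, inferInstance, inferInstance, inferInstance, GG M, GG_connected M,
    (6 * r + 1) + (6 * r + 1), start M (6 * r), by omega, ?_, ?_⟩
  · -- the number of walkers
    have hge := coverMax_ge r hM
    have hle := coverMax_le (M := M)
    have hh := hitMax_le (M := M)
    have hhtop : hitMax (toDi (GG M)) ≠ ∞ := ne_top_of_le_ne_top (ENNReal.natCast_ne_top _) hh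
    have hctop : coverMax (toDi (GG M)) ≠ ∞ :=
      ne_top_of_le_ne_top (ENNReal.mul_ne_top (ENNReal.natCast_ne_top _) hhtop) hle
    have hcpos : coverMax (toDi (GG M)) ≠ 0 := by
      intro h0
      rw [h0] at hge
      have : (((M + 2) ^ 2 : ℕ) : ℝ≥0∞) * ((r : ℝ≥0∞) / 2) ≠ 0 := by
        apply mul_ne_zero
        · simp
        · have : (r : ℝ≥0∞) ≠ 0 := by
            simp; omega
          simp [this]
      exact this (le_antisymm hge zero_le)
    have hhpos : hitMax (toDi (GG M)) ≠ 0 := by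
      intro h0
      rw [h0, mul_zero] at hle
      exact hcpos (le_antisymm hle zero_le)
    have hH : (r : ℝ) / 14 ≤ HH (toDi (GG M)) := by
      have h1 : ENNReal.ofReal ((r : ℝ) / 14) ≤ coverMax (toDi (GG M)) / hitMax (toDi (GG M)) := by
        rw [ENNReal.le_div_iff_mul_le (Or.inl hhpos) (Or.inl hhtop)]
        refine le_trans ?_ hge
        calc ENNReal.ofReal ((r : ℝ) / 14) * hitMax (toDi (GG M))
            ≤ ENNReal.ofReal ((r : ℝ) / 14) * ((7 * (M + 2) ^ 2 : ℕ) : ℝ≥0∞) := by gcongr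
          _ = ENNReal.ofReal ((((M + 2) ^ 2 : ℕ) : ℝ) * ((r : ℝ) / 2)) := by
              rw [← ENNReal.ofReal_natCast, ← ENNReal.ofReal_mul (by positivity)]
              congr 1; push_cast; ring
          _ = (((M + 2) ^ 2 : ℕ) : ℝ≥0∞) * ((r : ℝ≥0∞) / 2) := by
              rw [ENNReal.ofReal_mul (by positivity), ENNReal.ofReal_div_of_pos (by norm_num),
                ENNReal.ofReal_natCast, ENNReal.ofReal_natCast]
              norm_num
      have h2 := ENNReal.toReal_mono (ENNReal.div_ne_top hctop hhpos) h1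
      rw [ENNReal.toReal_ofReal (by positivity)] at h2
      exact h2
    have h3 : α * ((r : ℝ) / 14) ≤ α * HH (toDi (GG M)) := by gcongr
    refine le_trans ?_ (Real.exp_le_exp.2 h3)
    have h4 := Real.quadratic_le_exp_of_nonneg (x := α * ((r : ℝ) / 14)) (by positivity)
    refine le_trans ?_ h4
    have h5 : 5488 ≤ r * α ^ 2 := by rwa [div_le_iff₀ (by positivity)] at hr2
    have h6 : (14 : ℝ) * r ≤ (α * ((r : ℝ) / 14)) ^ 2 / 2 := by
      have : (α * ((r : ℝ) / 14)) ^ 2 / 2 = (r * α ^ 2) * r / 392 := by ring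
      rw [this]
      nlinarith
    have h7 : 0 ≤ α * ((r : ℝ) / 14) := by positivity
    push_cast
    linarith
  · -- the cover time
    have hge := coverMax_ge r hM
    have hup := cover_upper' r hM
    refine lt_of_lt_of_le ?_ hge
    refine lt_of_le_of_lt (mul_le_mul' le_rfl hup) ?_
    rw [← ENNReal.ofReal_mul (by positivity)]
    have h1 : (((M + 2) ^ 2 : ℕ) : ℝ≥0∞) * ((r : ℝ≥0∞) / 2) =
        ENNReal.ofReal ((((M + 2) ^ 2 : ℕ) : ℝ) * ((r : ℝ) / 2)) := by
      rw [ENNReal.ofReal_mul (by positivity), ENNReal.ofReal_div_of_pos (by norm_num),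
        ENNReal.ofReal_natCast, ENNReal.ofReal_natCast]
      norm_num
    rw [h1]
    have hp : (0 : ℝ) < 2 ^ r := by positivity
    apply (ENNReal.ofReal_lt_ofReal_iff (by push_cast; rw [hN]; positivity)).2
    push_cast
    rw [hN]
    have h2 : (r : ℝ) < 2 ^ r := by exact_mod_cast Nat.lt_two_pow_self
    have h3 : c * (6 * r + 1 + (6 * r + 1)) * (25 * 2 ^ r) ≤ c * (14 * r) * (25 * 2 ^ r) := by
      have : (6 * (r:ℝ) + 1 + (6 * r + 1)) ≤ 14 * r := by linarith
      gcongr
    refine lt_of_le_of_lt h3 ?_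
    have h4 : 700 * c < 2 ^ r := lt_of_le_of_lt hr3 h2
    have h5 : c * (14 * (r:ℝ)) * (25 * 2 ^ r) = (700 * c) * (r * 2 ^ r / 2) := by ring
    have h6 : ((2 : ℝ) ^ r) ^ 2 * ((r:ℝ) / 2) = 2 ^ r * (r * 2 ^ r / 2) := by ring
    rw [h5, h6]
    have h7 : (0:ℝ) < r * 2 ^ r / 2 := by positivity
    exact mul_lt_mul_of_pos_right h4 h7


end Final

end Pool.Agent.Results.MP_a2c283_pr.UndirectedCounterexample
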